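import Pool.Agent.W495.FM.Defs

/-!
# Motivic cohomology of abelian varieties over finite fields: definitions
-/

set_option autoImplicit false

namespace Pool.Agent.W495.FM

open Pool.Agent.W495.TA

noncomputable section

variable {p : ℕ} [Fact p.Prime] {ν : PadicAlgCl p ≃+* ℂ} {Ω : Type} [Field Ω] [CharZero Ω]
  {Y : RedAV p ν}

/-- Data of a theory of motivic cohomology groups `H i n = H^i(Y, ℚ(n))` with rational coefficients,
with the operation of correspondences. -/
structure Motivic (C : Cycles Ω Y) where
  H : ℤ → ℤ → Type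
  [grp : ∀ i n, AddCommGroup (H i n)]
  [mod : ∀ i n, Module ℚ (H i n)]
  act : ∀ i n, C.Corr → H i n → H i n

attribute [instance] Motivic.grp Motivic.mod

/-- The properties of the motivic cohomology groups `H^i(Y, ℚ(n))`, the weight `n` parts of the
rational algebraic `K`-groups of `Y`. -/
structure IsMotivic {C : Cycles Ω Y} (M : Motivic C) : Prop where
  rep : ∀ i n, IsRep ℚ (M.act i n)
  /-- the groups of negative weight vanish -/
  neg : ∀ i n, n < 0 → ∀ x : M.H i n, x = 0
  /-- the Frobenius endomorphism acts as multiplication by `q ^ n` -/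
  frob : ∀ (i : ℤ) (n : ℕ) x, M.act i n C.frob x = (q Y : ℚ) ^ n • x
  /-- a product `y × z` of cycles operates through the groups `H^(i - 2 c)(point, ℚ(n - c))`, where
  `c` is the codimension of `z`, which vanish for `i ≠ 2 n` (Quillen) -/
  point : ∀ i n, i ≠ 2 * n → ∀ a b, HasDim Y (a + b) → ∀ y z x,
    M.act i n (C.prod a b y z) x = 0

/-- The groups `X i n = H^i(X, ℤ(n))` of a smooth projective variety `X` whose Chow motive (with
rational coefficients) is a direct summand of the sum of the motives of the abelian varieties `Y l`,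
twisted `r l` times: up to torsion they embed into the sum of the groups
`H^(i - 2 r l)(Y l, ℚ(n - r l))`. -/
def IsSummand {I : Type} {Y : I → RedAV p ν} {C : ∀ l, Cycles Ω (Y l)} (M : ∀ l, Motivic (C l))
    (r : I → ℤ) (X : ℤ → ℤ → Type) [∀ i n, AddCommGroup (X i n)] : Prop :=
  ∃ φ : ∀ (i n : ℤ) (l : I), X i n →+ (M l).H (i - 2 * r l) (n - r l),
    ∀ (i n : ℤ) (x : X i n), (∀ l, φ i n l x = 0) → ∃ N : ℕ, 0 < N ∧ N • x = 0

end

end Pool.Agent.W495.FM
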