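import Pool.Agent.W495.FM.Bridge
import Pool.Agent.W495.FM.HigherDefs

/-!
# Motivic cohomology of abelian varieties over finite fields
-/

set_option autoImplicit false
set_option linter.unusedSectionVars false
set_option linter.unusedVariables false

namespace Pool.Agent.W495.FM

open NumberField Pool.Agent.H204R3.CM Pool.Agent.W547.KB Pool.Agent.W547.LD Module
  Pool.Agent.W495.TA Polynomial
open scoped TensorProduct

noncomputable section

variable {p : ℕ} [Fact p.Prime] {ν : PadicAlgCl p ≃+* ℂ} {Ω : Type} [Field Ω] [CharZero Ω]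
  {Y : RedAV p ν}

variable [IsAlgClosed Ω]

theorem motivic_trivial {C : Cycles Ω Y} (hC : IsChow C) (hT : TateHolds C) {M : Motivic C}
    (hM : IsMotivic M) (i n : ℤ) (hi : i ≠ 2 * n) (x : M.H i n) : x = 0 := by
  rcases lt_or_ge n 0 with hn | hn
  · exact hM.neg i n hn x
  · obtain ⟨m, rfl⟩ := Int.eq_ofNat_of_zero_le hn
    exact module_trivial hC hT (M.act i m) (hM.rep i m) m (hM.frob i m)
      (fun a b h y z x => hM.point i m hi a b h y z x) x

theorem summand_trivial {I : Type} {Y : I → RedAV p ν} {C : ∀ l, Cycles Ω (Y l)}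
    (hC : ∀ l, IsChow (C l)) (hT : ∀ l, TateHolds (C l)) {M : ∀ l, Motivic (C l)}
    (hM : ∀ l, IsMotivic (M l)) (r : I → ℤ) (X : ℤ → ℤ → Type) [∀ i n, AddCommGroup (X i n)]
    (hX : IsSummand M r X) (i n : ℤ) (hi : i ≠ 2 * n) (x : X i n) : ∃ N : ℕ, 0 < N ∧ N • x = 0 := by
  obtain ⟨φ, hφ⟩ := hX
  refine hφ i n x fun l => ?_
  exact motivic_trivial (hC l) (hT l) (hM l) _ _ (by omega) _

end

end Pool.Agent.W495.FM
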