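import Mathlib

/-!
# Linear algebra of regulators: the five lemma and direct summands
-/

set_option autoImplicit false
set_option linter.unusedSectionVars false
set_option linter.unusedVariables false

namespace Pool.Agent.W495.FM

open TensorProduct

noncomputable section

/-- A rational vector space `M`, a finite-dimensional space `E` over `Ω` with an endomorphism `φ`, and
a homomorphism from `M` to the invariant elements. -/
structure Node (Ω : Type) [Field Ω] where
  M : Type
  [gM : AddCommGroup M]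
  [mM : Module ℚ M]
  E : Type
  [gE : AddCommGroup E]
  [mE : Module Ω E]
  [fin : FiniteDimensional Ω E]
  φ : E →ₗ[Ω] E
  ρ : M →+ E
  inv : ∀ x, φ (ρ x) = ρ x

attribute [instance] Node.gM Node.mM Node.gE Node.mE Node.fin

variable {Ω : Type} [Field Ω] [CharZero Ω]

/-- The linear extension of the regulator. -/
def Node.lam (A : Node Ω) : Ω ⊗[ℚ] A.M →ₗ[Ω] A.E :=
  letI : Module ℚ A.E := Module.compHom A.E (algebraMap ℚ Ω)
  haveI : IsScalarTower ℚ Ω A.E := ⟨fun a b c => by
    rw [Algebra.smul_def, mul_smul]; rfl⟩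
  LinearMap.liftBaseChange Ω A.ρ.toRatLinearMap

theorem Node.lam_tmul (A : Node Ω) (a : Ω) (x : A.M) : A.lam (a ⊗ₜ x) = a • A.ρ x := rfl

/-- The generalised eigenspace for the eigenvalue one. -/
def Node.InG (A : Node Ω) (e : A.E) : Prop := ∃ k : ℕ, ((A.φ - 1) ^ k) e = 0

/-- The extension of the regulator is an isomorphism onto the generalised eigenspace. -/
def Node.Good (A : Node Ω) : Prop :=
  Function.Injective A.lam ∧ ∀ e, A.InG e → ∃ t, A.lam t = e

/-- Homomorphisms. -/
structure Arrow (A B : Node Ω) where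
  f : A.M →+ B.M
  g : A.E →ₗ[Ω] B.E
  comm : ∀ x, B.ρ (f x) = g (A.ρ x)
  frob : ∀ x, B.φ (g x) = g (A.φ x)

/-- The extension of scalars of the first component. -/
def Arrow.ten {A B : Node Ω} (a : Arrow A B) : Ω ⊗[ℚ] A.M →ₗ[ℚ] Ω ⊗[ℚ] B.M :=
  a.f.toRatLinearMap.lTensor Ω

theorem Arrow.lam_ten {A B : Node Ω} (a : Arrow A B) (t : Ω ⊗[ℚ] A.M) :
    B.lam (a.ten t) = a.g (A.lam t) := by
  induction t using TensorProduct.induction_on with
  | zero => simp only [map_zero]
  | tmul c x =>
    have h1 : a.ten (c ⊗ₜ x) = c ⊗ₜ (a.f x) := rfl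
    rw [h1, Node.lam_tmul, Node.lam_tmul, a.comm, map_smul]
  | add x y hx hy => rw [map_add, map_add, hx, hy, map_add, map_add]

theorem Arrow.frob_pow {A B : Node Ω} (a : Arrow A B) (k : ℕ) (x : A.E) :
    ((B.φ - 1) ^ k) (a.g x) = a.g (((A.φ - 1) ^ k) x) := by
  induction k generalizing x with
  | zero => rfl
  | succ k ih =>
    have h1 : (B.φ - 1) (a.g x) = a.g ((A.φ - 1) x) := by
      rw [LinearMap.sub_apply, LinearMap.sub_apply, a.frob, map_sub]
      rfl
    rw [pow_succ, pow_succ, Module.End.mul_apply, Module.End.mul_apply, h1, ih]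

theorem Arrow.inG {A B : Node Ω} (a : Arrow A B) {x : A.E} (hx : A.InG x) : B.InG (a.g x) := by
  obtain ⟨k, hk⟩ := hx
  exact ⟨k, by rw [a.frob_pow, hk, map_zero]⟩

theorem Node.φ_lam (A : Node Ω) (t : Ω ⊗[ℚ] A.M) : A.φ (A.lam t) = A.lam t := by
  induction t using TensorProduct.induction_on with
  | zero => simp only [map_zero]
  | tmul c x => rw [Node.lam_tmul, map_smul, A.inv]
  | add x y hx hy => rw [map_add, map_add, hx, hy]

theorem Node.inG_lam (A : Node Ω) (t : Ω ⊗[ℚ] A.M) : A.InG (A.lam t) :=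
  ⟨1, by
    rw [pow_one, LinearMap.sub_apply, A.φ_lam]
    exact sub_self _⟩

theorem Node.InG.add {A : Node Ω} {x y : A.E} (hx : A.InG x) (hy : A.InG y) : A.InG (x + y) := by
  obtain ⟨k, hk⟩ := hx
  obtain ⟨l, hl⟩ := hy
  refine ⟨l + k, ?_⟩
  rw [map_add]
  have h1 : ((A.φ - 1) ^ (l + k)) x = 0 := by
    rw [pow_add, Module.End.mul_apply, hk, map_zero]
  have h2 : ((A.φ - 1) ^ (l + k)) y = 0 := by
    rw [add_comm, pow_add, Module.End.mul_apply, hl, map_zero]
  rw [h1, h2, add_zero]

theorem Node.InG.neg {A : Node Ω} {x : A.E} (hx : A.InG x) : A.InG (-x) := by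
  obtain ⟨k, hk⟩ := hx
  exact ⟨k, by rw [map_neg, hk, neg_zero]⟩

/-- Elements of the image that belong to the generalised eigenspace. -/
theorem Arrow.lift_gen {A B : Node Ω} (a : Arrow A B) (x : B.E) (hx : B.InG x) (y0 : A.E)
    (hy0 : a.g y0 = x) : ∃ y, A.InG y ∧ a.g y = x := by
  -- a polynomial that vanishes at both endomorphisms
  let P : Polynomial Ω := A.φ.charpoly * B.φ.charpoly
  have hP0 : P ≠ 0 := mul_ne_zero (LinearMap.charpoly_monic _).ne_zero
    (LinearMap.charpoly_monic _).ne_zero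
  have hPA : Polynomial.aeval A.φ P = 0 := by
    rw [map_mul, LinearMap.aeval_self_charpoly, zero_mul]
  obtain ⟨Q, hQ, hQ'⟩ := Polynomial.exists_eq_pow_rootMultiplicity_mul_and_not_dvd P hP0 (1 : Ω)
  set m := P.rootMultiplicity 1 with hm
  obtain ⟨k, hk⟩ := hx
  -- Bézout for a large power
  have hcop : IsCoprime ((Polynomial.X - Polynomial.C (1 : Ω)) ^ (m + k)) Q := by
    apply IsCoprime.pow_left
    exact (Polynomial.irreducible_X_sub_C (1 : Ω)).coprime_iff_not_dvd.2 hQ'
  obtain ⟨u, v, huv⟩ := hcop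
  have hX : ∀ (D : Node Ω) (n : ℕ), Polynomial.aeval D.φ ((Polynomial.X - Polynomial.C (1 : Ω)) ^ n) =
      (D.φ - 1) ^ n := by
    intro D n
    rw [map_pow, map_sub, Polynomial.aeval_X, Polynomial.aeval_C, map_one]
  have hcomm : ∀ (R : Polynomial Ω) (z : A.E),
      a.g (Polynomial.aeval A.φ R z) = Polynomial.aeval B.φ R (a.g z) := by
    intro R z
    induction R using Polynomial.induction_on' with
    | add R S hR hS => rw [map_add, map_add, LinearMap.add_apply, LinearMap.add_apply, map_add, hR, hS]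
    | monomial n c =>
      have h1 : ∀ (n : ℕ) (z : A.E), a.g ((A.φ ^ n) z) = (B.φ ^ n) (a.g z) := by
        intro n
        induction n with
        | zero => intro z; rfl
        | succ n ih =>
          intro z
          rw [pow_succ, pow_succ, Module.End.mul_apply, Module.End.mul_apply, ih, a.frob]
      rw [Polynomial.aeval_monomial, Polynomial.aeval_monomial, Module.End.mul_apply,
        Module.End.mul_apply, Module.algebraMap_end_apply, Module.algebraMap_end_apply, map_smul, h1]
  refine ⟨Polynomial.aeval A.φ (v * Q) y0, ⟨m, ?_⟩, ?_⟩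
  · have h2 : (A.φ - 1) ^ m * Polynomial.aeval A.φ (v * Q) = 0 := by
      rw [← hX A m, ← map_mul]
      have h3 : (Polynomial.X - Polynomial.C (1 : Ω)) ^ m * (v * Q) = v * P := by
        rw [hQ]
        ring
      rw [h3, map_mul, hPA, mul_zero]
    rw [← Module.End.mul_apply, h2, LinearMap.zero_apply]
  · rw [hcomm, hy0]
    have h4 : Polynomial.aeval B.φ (v * Q) = 1 - Polynomial.aeval B.φ
        (u * (Polynomial.X - Polynomial.C (1 : Ω)) ^ (m + k)) := by
      rw [eq_sub_iff_add_eq, ← map_add, add_comm, huv, map_one]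
    rw [h4, LinearMap.sub_apply, map_mul, hX, pow_add, Module.End.mul_apply, Module.End.mul_apply,
      hk, map_zero, map_zero, sub_zero]
    rfl

/-- The generalised eigenspaces form an exact sequence. -/
theorem Arrow.fitting {A B C : Node Ω} (a : Arrow A B) (b : Arrow B C)
    (h : Function.Exact a.g b.g) (x : B.E) (hx : B.InG x) (hb : b.g x = 0) :
    ∃ y, A.InG y ∧ a.g y = x := by
  obtain ⟨y0, hy0⟩ := (h x).1 hb
  exact a.lift_gen x hx y0 hy0

/-- Exactness of the rational parts is preserved by extension of scalars. -/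
theorem Arrow.exact_ten {A B C : Node Ω} (a : Arrow A B) (b : Arrow B C)
    (h : Function.Exact a.f b.f) : Function.Exact a.ten b.ten := by
  refine Module.Flat.lTensor_exact Ω ?_
  exact h

/-- The five lemma. -/
theorem five {A₁ A₂ A₃ A₄ A₅ : Node Ω} (a₁ : Arrow A₁ A₂) (a₂ : Arrow A₂ A₃) (a₃ : Arrow A₃ A₄)
    (a₄ : Arrow A₄ A₅) (e₁ : Function.Exact a₁.f a₂.f) (e₂ : Function.Exact a₂.f a₃.f)
    (e₃ : Function.Exact a₃.f a₄.f) (e₁' : Function.Exact a₁.g a₂.g)
    (e₂' : Function.Exact a₂.g a₃.g) (e₃' : Function.Exact a₃.g a₄.g)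
    (h₁ : A₁.Good) (h₂ : A₂.Good) (h₄ : A₄.Good) (h₅ : A₅.Good) : A₃.Good := by
  have t₁ := a₁.exact_ten a₂ e₁
  have t₂ := a₂.exact_ten a₃ e₂
  have t₃ := a₃.exact_ten a₄ e₃
  constructor
  · rw [injective_iff_map_eq_zero]
    intro t ht
    have h1 : a₃.ten t = 0 := by
      apply h₄.1
      rw [a₃.lam_ten, ht, map_zero, map_zero]
    obtain ⟨u, rfl⟩ := (t₂ t).1 h1
    have h2 : a₂.g (A₂.lam u) = 0 := by rw [← a₂.lam_ten, ht]
    obtain ⟨v, hv, hv'⟩ := a₁.fitting a₂ e₁' _ (A₂.inG_lam u) h2
    obtain ⟨w, rfl⟩ := h₁.2 v hv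
    rw [← a₁.lam_ten] at hv'
    have h3 := h₂.1 hv'
    rw [← h3]
    exact (t₁ _).2 ⟨w, rfl⟩
  · intro e he
    obtain ⟨u, hu⟩ := h₄.2 _ (a₃.inG he)
    have h1 : a₄.ten u = 0 := by
      apply h₅.1
      rw [a₄.lam_ten, hu, map_zero]
      exact (e₃' _).2 ⟨e, rfl⟩
    obtain ⟨t, rfl⟩ := (t₃ u).1 h1
    rw [a₃.lam_ten] at hu
    have h2 : a₃.g (e + -A₃.lam t) = 0 := by
      rw [map_add, map_neg, hu, add_neg_cancel]
    obtain ⟨v, hv, hv'⟩ := a₂.fitting a₃ e₂' _ (he.add (A₃.inG_lam t).neg) h2
    obtain ⟨w, rfl⟩ := h₂.2 v hv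
    refine ⟨t + a₂.ten w, ?_⟩
    rw [map_add, a₂.lam_ten, hv']
    abel

/-- Products. -/
def pi {I : Type} [Finite I] (B : I → Node Ω) : Node Ω :=
  letI := Fintype.ofFinite I
  { M := ∀ l, (B l).M
    E := ∀ l, (B l).E
    φ := LinearMap.pi fun l => (B l).φ ∘ₗ LinearMap.proj l
    ρ := { toFun := fun x l => (B l).ρ (x l)
           map_zero' := funext fun l => map_zero _
           map_add' := fun x y => funext fun l => map_add _ _ _ }
    inv := fun x => funext fun l => (B l).inv (x l) }

/-- Projections. -/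
def pr {I : Type} [Finite I] (B : I → Node Ω) (l : I) : Arrow (pi B) (B l) where
  f := { toFun := fun x => x l
         map_zero' := rfl
         map_add' := fun _ _ => rfl }
  g := LinearMap.proj l
  comm := fun _ => rfl
  frob := fun _ => rfl

theorem piRight_apply' {I : Type} [Fintype I] [DecidableEq I] (B : I → Node Ω)
    (t : Ω ⊗[ℚ] (∀ l, (B l).M)) (l : I) :
    (TensorProduct.piRight ℚ ℚ Ω (fun l => (B l).M)) t l =
      (LinearMap.proj l : (∀ l, (B l).M) →ₗ[ℚ] (B l).M).lTensor Ω t := by
  induction t using TensorProduct.induction_on with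
  | zero => rw [map_zero, map_zero]; rfl
  | tmul c x => rfl
  | add x y hx hy => rw [map_add, map_add, Pi.add_apply, hx, hy]

theorem pr_ten {I : Type} [Finite I] (B : I → Node Ω) (l : I) :
    (pr B l).ten = (LinearMap.proj l : (∀ l, (B l).M) →ₗ[ℚ] (B l).M).lTensor Ω := rfl

theorem good_pi {I : Type} [Finite I] (B : I → Node Ω) (h : ∀ l, (B l).Good) : (pi B).Good := by
  classical
  have := Fintype.ofFinite I
  constructor
  · rw [injective_iff_map_eq_zero]
    intro t ht
    have h1 : ∀ l, (pr B l).ten t = 0 := by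
      intro l
      apply (h l).1
      rw [(pr B l).lam_ten, ht, map_zero, map_zero]
    have h2 : (TensorProduct.piRight ℚ ℚ Ω (fun l => (B l).M)) t = 0 := by
      funext l
      rw [piRight_apply']
      exact h1 l
    exact (LinearEquiv.map_eq_zero_iff _).1 h2
  · intro e he
    have h1 : ∀ l, ∃ t : Ω ⊗[ℚ] (B l).M, (B l).lam t = e l := fun l =>
      (h l).2 _ ((pr B l).inG he)
    choose t ht using h1
    let u : Ω ⊗[ℚ] (∀ l, (B l).M) := (TensorProduct.piRight ℚ ℚ Ω (fun l => (B l).M)).symm t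
    have hu : (TensorProduct.piRight ℚ ℚ Ω (fun l => (B l).M)) u = t :=
      LinearEquiv.apply_symm_apply _ _
    refine ⟨u, ?_⟩
    funext l
    have h3 : (B l).lam ((pr B l).ten u) = (pi B).lam u l := (pr B l).lam_ten u
    have h5 : (LinearMap.proj l : (∀ l, (B l).M) →ₗ[ℚ] (B l).M).lTensor Ω u = t l := by
      rw [← piRight_apply', hu]
    have h4 : (pr B l).ten u = t l := h5
    rw [h4, ht] at h3
    exact h3.symm

/-- Direct summands. -/
theorem good_retract {A B : Node Ω} (a : Arrow A B) (b : Arrow B A) (h : ∀ x, b.f (a.f x) = x)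
    (h' : ∀ x, b.g (a.g x) = x) (hB : B.Good) : A.Good := by
  have h1 : ∀ t, b.ten (a.ten t) = t := by
    intro t
    induction t using TensorProduct.induction_on with
    | zero => rw [map_zero, map_zero]
    | tmul c x =>
      change c ⊗ₜ[ℚ] b.f (a.f x) = c ⊗ₜ x
      rw [h]
    | add x y hx hy => rw [map_add, map_add, hx, hy]
  constructor
  · rw [injective_iff_map_eq_zero]
    intro t ht
    have h2 : a.ten t = 0 := by
      apply hB.1
      rw [a.lam_ten, ht, map_zero, map_zero]
    rw [← h1 t, h2, map_zero]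
  · intro e he
    obtain ⟨u, hu⟩ := hB.2 _ (a.inG he)
    refine ⟨b.ten u, ?_⟩
    rw [b.lam_ten, hu, h']

/-- The description of good nodes by elements. -/
theorem Node.good_iff (A : Node Ω) : A.Good ↔
    (∀ e, A.φ e = e ↔ e ∈ Submodule.span Ω (Set.range A.ρ)) ∧
    (∀ (r : ℕ) (x : Fin r → A.M), LinearIndependent ℚ x → LinearIndependent Ω fun k => A.ρ (x k)) ∧
    ∀ e, A.φ (A.φ e - e) = A.φ e - e → A.φ e = e := by
  have hrange : ∀ e, e ∈ Submodule.span Ω (Set.range A.ρ) ↔ ∃ t, A.lam t = e := by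
    intro e
    constructor
    · intro he
      induction he using Submodule.span_induction with
      | mem x hx =>
        obtain ⟨y, rfl⟩ := hx
        exact ⟨1 ⊗ₜ y, by rw [A.lam_tmul, one_smul]⟩
      | zero => exact ⟨0, map_zero _⟩
      | add x y _ _ hx hy =>
        obtain ⟨t, ht⟩ := hx
        obtain ⟨s, hs⟩ := hy
        exact ⟨t + s, by rw [map_add, ht, hs]⟩
      | smul c x _ hx =>
        obtain ⟨t, ht⟩ := hx
        exact ⟨c • t, by rw [map_smul, ht]⟩
    · rintro ⟨t, rfl⟩
      induction t using TensorProduct.induction_on with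
      | zero => rw [map_zero]; exact Submodule.zero_mem _
      | tmul c x =>
        rw [A.lam_tmul]
        exact Submodule.smul_mem _ _ (Submodule.subset_span ⟨x, rfl⟩)
      | add x y hx hy => rw [map_add]; exact Submodule.add_mem _ hx hy
  have hφ : ∀ e, (A.φ - 1) e = A.φ e - e := fun e => rfl
  constructor
  · rintro ⟨h1, h2⟩
    refine ⟨fun e => ?_, fun r x hx => ?_, fun e he => ?_⟩
    · rw [hrange]
      constructor
      · intro he
        refine h2 e ⟨1, ?_⟩
        rw [pow_one, hφ, he, sub_self]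
      · rintro ⟨t, rfl⟩
        exact A.φ_lam t
    · have h3 : LinearIndependent Ω fun k => (1 : Ω) ⊗ₜ[ℚ] x k := by
        let b := Module.Basis.extend hx.linearIndepOn_id
        have h4 : LinearIndependent Ω fun k => (Algebra.TensorProduct.basis Ω b) k :=
          (Algebra.TensorProduct.basis Ω b).linearIndependent
        have h5 : ∀ k, x k ∈ hx.linearIndepOn_id.extend (Set.subset_univ _) := fun k =>
          hx.linearIndepOn_id.subset_extend _ ⟨k, rfl⟩
        have h6 := h4.comp (fun k => (⟨x k, h5 k⟩ :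
          hx.linearIndepOn_id.extend (Set.subset_univ _))) (by
            intro k l hkl
            exact hx.injective (Subtype.ext_iff.1 hkl))
        convert h6 using 2 with k
        rw [Function.comp_apply, Algebra.TensorProduct.basis_apply, Module.Basis.extend_apply_self]
      have h7 := h3.map' A.lam (LinearMap.ker_eq_bot.2 h1)
      have h8 : (fun k => A.ρ (x k)) = A.lam ∘ fun k => (1 : Ω) ⊗ₜ[ℚ] x k := by
        funext k
        rw [Function.comp_apply, A.lam_tmul, one_smul]
      rw [h8]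
      exact h7
    · obtain ⟨t, rfl⟩ := h2 e ⟨2, by
        rw [pow_two, Module.End.mul_apply, hφ, hφ, he, sub_self]⟩
      exact A.φ_lam t
  · rintro ⟨h1, h2, h3⟩
    constructor
    · rw [injective_iff_map_eq_zero]
      intro t ht
      obtain ⟨r, x, a, hx, rfl⟩ : ∃ (r : ℕ) (x : Fin r → A.M) (a : Fin r → Ω),
          LinearIndependent ℚ x ∧ t = ∑ k, a k ⊗ₜ x k := by
        let b := Module.Basis.ofVectorSpace ℚ A.M
        let c := Algebra.TensorProduct.basis Ω b
        classical
        let s := (c.repr t).support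
        let eq := s.equivFin
        refine ⟨s.card, fun k => b (eq.symm k : _), fun k => c.repr t (eq.symm k : _), ?_, ?_⟩
        · refine b.linearIndependent.comp _ ?_
          intro k l hkl
          exact eq.symm.injective (Subtype.ext hkl)
        · conv_lhs => rw [← c.linearCombination_repr t, Finsupp.linearCombination_apply, Finsupp.sum]
          rw [← Finset.sum_coe_sort]
          rw [← Equiv.sum_comp eq.symm]
          refine Finset.sum_congr rfl fun k _ => ?_
          rw [Algebra.TensorProduct.basis_apply, TensorProduct.smul_tmul', smul_eq_mul, mul_one]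
      rw [map_sum] at ht
      have h4 := Fintype.linearIndependent_iff.1 (h2 r x hx) a (by
        rw [← ht]
        exact Finset.sum_congr rfl fun k _ => (A.lam_tmul _ _).symm)
      refine Finset.sum_eq_zero fun k _ => ?_
      rw [h4 k, TensorProduct.zero_tmul]
    · rintro e ⟨k, hk⟩
      rw [← hrange, ← h1]
      induction k generalizing e with
      | zero =>
        have : e = 0 := hk
        rw [this, map_zero]
      | succ k ih =>
        rw [pow_succ, Module.End.mul_apply, hφ] at hk
        exact h3 e (ih _ hk)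

end

end Pool.Agent.W495.FM
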