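import Pool.Agent.W495.FM.Bridge
import Pool.Agent.W495.TC.Main

/-!
# The Tate classes on the abelian varieties under consideration are classes of cycles
-/

set_option autoImplicit false

namespace Pool.Agent.W495.FM

open NumberField Pool.Agent.H204R3.CM Pool.Agent.W547.KB Pool.Agent.W547.LD Module
  Pool.Agent.W495.TA
open scoped TensorProduct

noncomputable section

variable {p : ℕ} [Fact p.Prime] {ν : PadicAlgCl p ≃+* ℂ} {Ω : Type} [Field Ω] [IsAlgClosed Ω]
  [CharZero Ω] {Y : RedAV p ν}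

theorem tateHolds {C : Cycles Ω Y} (hY : IsSmall Y) (hC : IsChow C) : TateHolds C := by
  intro j f hf
  refine hC.algebraic j f ?_ hf
  rcases hY with h | ⟨A, b, ϖ, hA, hb, hϖ, h⟩ | h
  · exact Pool.Agent.W495.TB.four p ν Ω Y h 1 j one_pos f hf
  · exact Pool.Agent.W495.TA.main p ν A hA b hb ϖ hϖ Ω Y h 1 j one_pos f hf
  · exact Pool.Agent.W495.TC.small p ν Ω Y ⟨h.1, h.2⟩ 1 j one_pos f hf

end

end Pool.Agent.W495.FM
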