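import Pool.Agent.W495.FM.Eigen

/-!
# Cycles on abelian varieties over finite fields: from Tate classes to rational equivalence
-/

set_option autoImplicit false
set_option linter.unusedSectionVars false
set_option linter.unusedVariables false

namespace Pool.Agent.W495.FM.In

open NumberField Pool.Agent.H204R3.CM Pool.Agent.W547.KB Pool.Agent.W547.LD Module
  Pool.Agent.W495.TA Polynomial
open scoped TensorProduct

noncomputable section

/-- The operation of a polynomial in an element that acts as an integer. -/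
theorem act_aeval {A T : Type} [Ring A] [AddCommGroup T] [Module ℚ T] (φ : A →+* Module.End ℚ T)
    (c : A) (N : ℤ) (hc : ∀ x, φ c x = (N : ℚ) • x) (R : ℤ[X]) (x : T) :
    φ (aeval c R) x = ((R.eval N : ℤ) : ℚ) • x := by
  have h1 : φ c = algebraMap ℤ (Module.End ℚ T) N := by
    ext x
    rw [hc]
    change _ = ((N : ℤ) : Module.End ℚ T) x
    rw [Module.End.intCast_apply, ← Int.cast_smul_eq_zsmul ℚ]
  have h2 : φ (aeval c R) = algebraMap ℤ (Module.End ℚ T) (R.eval N) := by
    have h3 := Polynomial.aeval_algHom_apply (RingHom.toIntAlgHom φ) c R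
    have h4 : (RingHom.toIntAlgHom φ) c = φ c := rfl
    have h5 : (RingHom.toIntAlgHom φ) (aeval c R) = φ (aeval c R) := rfl
    rw [h4, h5, h1, aeval_algebraMap_apply_eq_algebraMap_eval] at h3
    exact h3.symm
  rw [h2]
  change (((R.eval N : ℤ)) : Module.End ℚ T) x = _
  rw [Module.End.intCast_apply, ← Int.cast_smul_eq_zsmul ℚ]

variable {p : ℕ} [Fact p.Prime] {ν : PadicAlgCl p ≃+* ℂ} {Ω : Type} [Field Ω] [CharZero Ω]
  {Y : RedAV p ν}

section poly

variable {W : Type} [Fintype W] (e : Basis W Ω (TM Ω Y)) (lam : W → Ω)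
  (he : ∀ w, F Ω Y (e w) = lam w • e w)

include he in
theorem Fr_e (n : ℕ) (f : Coh Ω Y n) (I : Fin n → W) :
    Fr Ω Y n f (fun k => e (I k)) = (∏ k, lam (I k)) * f (fun k => e (I k)) := by
  change f (fun k => F Ω Y (e (I k))) = _
  have h : (fun k => F Ω Y (e (I k))) = fun k => lam (I k) • e (I k) := funext fun k => he (I k)
  rw [h, AlternatingMap.map_smul_univ, smul_eq_mul]

include he in
theorem aeval_e (n : ℕ) (R : ℤ[X]) (f : Coh Ω Y n) (I : Fin n → W) :
    (aeval (Fr Ω Y n) R f : Coh Ω Y n) (fun k => e (I k)) =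
      aeval (∏ k, lam (I k)) R * f (fun k => e (I k)) := by
  induction R using Polynomial.induction_on' with
  | add P Q hP hQ =>
    rw [map_add, map_add, LinearMap.add_apply, AlternatingMap.add_apply, hP, hQ, add_mul]
  | monomial m a =>
    have h1 : ∀ (m : ℕ) (g : Coh Ω Y n), ((Fr Ω Y n ^ m) g : Coh Ω Y n) (fun k => e (I k)) =
        (∏ k, lam (I k)) ^ m * g (fun k => e (I k)) := by
      intro m
      induction m with
      | zero => intro g; rw [pow_zero, pow_zero, one_mul]; rfl
      | succ m ih =>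
        intro g
        rw [pow_succ, pow_succ]
        change ((Fr Ω Y n ^ m) (Fr Ω Y n g) : Coh Ω Y n) _ = _
        rw [ih, Fr_e e lam he, mul_assoc]
    rw [aeval_monomial, aeval_monomial]
    change ((((a : ℤ) : Module.End Ω (Coh Ω Y n)) * (Fr Ω Y n) ^ m) f : Coh Ω Y n) _ = _
    rw [Module.End.mul_apply, Module.End.intCast_apply, ← Int.cast_smul_eq_zsmul Ω,
      AlternatingMap.smul_apply, h1, smul_eq_mul, mul_assoc]
    rfl

end poly

theorem mem_tate {j : ℕ} {f : Coh Ω Y (2 * j)} :
    f ∈ Tate Ω Y j ↔ Fr Ω Y (2 * j) f = (q Y : Ω) ^ j • f := by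
  have h0 : ((p : Ω) ^ Y.a) ^ (j * 1) = (q Y : Ω) ^ j := by
    unfold q
    rw [mul_one]
    push_cast
    rfl
  constructor
  · intro h
    ext v
    have h1 := h v
    rw [h0, pow_one] at h1
    exact h1
  · intro h v
    rw [h0, pow_one]
    exact DFunLike.congr_fun h v

/-- For each `j` there is a polynomial `R` with `R (q ^ j) ≠ 0` such that `R` applied to the Frobenius
endomorphism kills the cohomology in degrees different from `2 j` and maps the cohomology of degree
`2 j` to the Tate classes. -/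
theorem exists_R (Ω : Type) [Field Ω] [IsAlgClosed Ω] [CharZero Ω] (Y : RedAV p ν) (j : ℕ) :
    ∃ R : ℤ[X], R.eval ((q Y ^ j : ℕ) : ℤ) ≠ 0 ∧
      (∀ n, n ≠ 2 * j → aeval (Fr Ω Y n) R = 0) ∧
      ∀ f : Coh Ω Y (2 * j), aeval (Fr Ω Y (2 * j)) R f ∈ Tate Ω Y j := by
  classical
  obtain ⟨W, _, e, lam, he, hint, hw⟩ := exists_eigen Ω Y
  -- all products of eigenvalues of length at most the dimension
  let S : Finset Ω := (Finset.range (Fintype.card W + 1)).biUnion fun n =>
    (Finset.univ : Finset (Fin n → W)).image fun I => ∏ k, lam (I k)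
  have hmem : ∀ (n : ℕ) (I : Fin n → W), Function.Injective I → ∏ k, lam (I k) ∈ S := by
    intro n I hI
    have h1 : n ≤ Fintype.card W := by
      simpa using Fintype.card_le_of_injective I hI
    refine Finset.mem_biUnion.2 ⟨n, Finset.mem_range.2 (by omega), ?_⟩
    exact Finset.mem_image_of_mem _ (Finset.mem_univ I)
  obtain ⟨R, hR, hR'⟩ := exists_poly S (by
    intro x hx
    obtain ⟨n, -, hx⟩ := Finset.mem_biUnion.1 hx
    obtain ⟨I, -, rfl⟩ := Finset.mem_image.1 hx
    exact IsIntegral.prod _ fun k _ => hint (I k)) (q Y ^ j)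
  refine ⟨R, hR, ?_, ?_⟩
  · intro n hn
    ext1 f
    refine Basis.ext_alternating e fun I hI => ?_
    rw [aeval_e e lam he, hR' _ (hmem n I hI), zero_mul]
    · rfl
    · intro h
      push_cast at h
      exact hn (hw n j I h)
  · intro f
    rw [mem_tate]
    refine Basis.ext_alternating e fun I hI => ?_
    rw [Fr_e e lam he, aeval_e e lam he, AlternatingMap.smul_apply, aeval_e e lam he, smul_eq_mul]
    by_cases h : ∏ k, lam (I k) = (q Y : Ω) ^ j
    · rw [h]
    · rw [hR' _ (hmem _ I hI) (by push_cast; exact h)]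
      ring

/-- Polynomials in the Frobenius endomorphism on Tate classes. -/
theorem aeval_tate (j : ℕ) (f : Coh Ω Y (2 * j)) (hf : f ∈ Tate Ω Y j) (R : ℤ[X]) :
    aeval (Fr Ω Y (2 * j)) R f = ((R.eval ((q Y ^ j : ℕ) : ℤ) : ℤ) : Ω) • f := by
  rw [mem_tate] at hf
  induction R using Polynomial.induction_on' with
  | add P Q hP hQ => rw [map_add, LinearMap.add_apply, hP, hQ, eval_add, Int.cast_add, add_smul]
  | monomial m a =>
    have h1 : ∀ m : ℕ, (Fr Ω Y (2 * j) ^ m) f = ((q Y : Ω) ^ j) ^ m • f := by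
      intro m
      induction m with
      | zero => rw [pow_zero, pow_zero, one_smul]; rfl
      | succ m ih =>
        rw [pow_succ, Module.End.mul_apply, hf, map_smul, ih, smul_smul, ← pow_succ']
    rw [aeval_monomial]
    change (((a : ℤ) : Module.End Ω (Coh Ω Y (2 * j))) * (Fr Ω Y (2 * j)) ^ m) f = _
    rw [Module.End.mul_apply, Module.End.intCast_apply, ← Int.cast_smul_eq_zsmul Ω, h1, smul_smul,
      eval_monomial]
    push_cast
    rfl

variable {C : Cycles Ω Y}

/-- The pairing with a Tate class. -/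
theorem pair_aeval (hC : IsChow C) {i j : ℕ} (h : HasDim Y (i + j)) (g : Coh Ω Y (2 * i))
    (hg : g ∈ Tate Ω Y i) (f : Coh Ω Y (2 * j)) (R : ℤ[X]) :
    C.pair h g (aeval (Fr Ω Y (2 * j)) R f) =
      ((R.eval ((q Y ^ j : ℕ) : ℤ) : ℤ) : Ω) * C.pair h g f := by
  have hq : (q Y : Ω) ≠ 0 := by
    unfold q
    push_cast
    exact pow_ne_zero _ (by exact_mod_cast (Fact.out : p.Prime).ne_zero)
  have h1 : ∀ f : Coh Ω Y (2 * j), C.pair h g (Fr Ω Y (2 * j) f) = (q Y : Ω) ^ j * C.pair h g f := by
    intro f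
    have h2 := hC.frob_pair h g f
    rw [mem_tate.1 hg, map_smul, LinearMap.smul_apply, smul_eq_mul, pow_add, mul_assoc] at h2
    exact mul_left_cancel₀ (pow_ne_zero _ hq) h2
  induction R using Polynomial.induction_on' with
  | add P Q hP hQ =>
    rw [map_add, LinearMap.add_apply, map_add, hP, hQ, eval_add, Int.cast_add, add_mul]
  | monomial m a =>
    have h3 : ∀ (m : ℕ) (f : Coh Ω Y (2 * j)), C.pair h g ((Fr Ω Y (2 * j) ^ m) f) =
        ((q Y : Ω) ^ j) ^ m * C.pair h g f := by
      intro m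
      induction m with
      | zero => intro f; rw [pow_zero, pow_zero, one_mul]; rfl
      | succ m ih =>
        intro f
        rw [pow_succ, Module.End.mul_apply, ih, h1, pow_succ, mul_assoc]
    rw [aeval_monomial]
    change C.pair h g ((((a : ℤ) : Module.End Ω (Coh Ω Y (2 * j))) * (Fr Ω Y (2 * j)) ^ m) f) = _
    rw [Module.End.mul_apply, Module.End.intCast_apply, ← Int.cast_smul_eq_zsmul Ω, map_smul, h3,
      eval_monomial, smul_eq_mul]
    push_cast
    ring

end

end Pool.Agent.W495.FM.In
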