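import Pool.Agent.W495.FM.Eigen
import Pool.Agent.W495.FM.Core

/-!
# Weights and semisimplicity
-/

set_option autoImplicit false
set_option linter.unusedSectionVars false
set_option linter.unusedVariables false

namespace Pool.Agent.W495.FM.In

open NumberField Pool.Agent.H204R3.CM Pool.Agent.W547.KB Pool.Agent.W547.LD Module
  Pool.Agent.W495.TA
open scoped TensorProduct

noncomputable section

variable {p : ℕ} [Fact p.Prime] {ν : PadicAlgCl p ≃+* ℂ} {Ω : Type} [Field Ω] [CharZero Ω]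
  [IsAlgClosed Ω]

/-- Weights: the eigenvalues of the Frobenius on the cohomology of degree `n` that are powers of `q`. -/
theorem weight (Y : RedAV p ν) (n : ℕ) (c : ℤ) (f : Coh Ω Y n)
    (hf : Fr Ω Y n f = (q Y : Ω) ^ c • f) (hn : (n : ℤ) ≠ 2 * c) : f = 0 := by
  obtain ⟨W, _, e, lam, he, hint, hw⟩ := exists_eigen Ω Y
  refine Basis.ext_alternating e fun I hI => ?_
  have h1 : (∏ k, lam (I k)) * f (fun k => e (I k)) = (q Y : Ω) ^ c * f (fun k => e (I k)) := by
    rw [← Fr_e e lam he n f I, hf]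
    rfl
  by_contra h2
  have h3 : ∏ k, lam (I k) = (q Y : Ω) ^ c := mul_right_cancel₀ h2 h1
  rcases lt_or_ge c 0 with hc | hc
  · -- negative powers are not integral
    obtain ⟨m, hm⟩ := Int.eq_ofNat_of_zero_le (show 0 ≤ -c by omega)
    have h4 : IsIntegral ℤ ((q Y : Ω) ^ c) := by
      rw [← h3]
      exact IsIntegral.prod _ fun k _ => hint (I k)
    have hq : 1 < q Y := Nat.one_lt_pow Y.pos.ne' (Fact.out : p.Prime).one_lt
    have hq0 : (q Y : ℚ) ≠ 0 := by exact_mod_cast (show q Y ≠ 0 by omega)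
    have h5 : (q Y : Ω) ^ c = algebraMap ℚ Ω ((q Y : ℚ) ^ c) := by
      rw [map_zpow₀, map_natCast]
    rw [h5, isIntegral_algebraMap_iff (algebraMap ℚ Ω).injective] at h4
    obtain ⟨z, hz⟩ := IsIntegrallyClosed.isIntegral_iff.1 h4
    have h6 : (z : ℚ) * (q Y : ℚ) ^ m = 1 := by
      have h7 : (z : ℚ) = (q Y : ℚ) ^ c := hz
      rw [h7, ← zpow_natCast, ← zpow_add₀ hq0, ← show -c = (m : ℤ) from hm]
      simp
    have h8 : z * (q Y : ℤ) ^ m = 1 := by exact_mod_cast h6
    have h9 : IsUnit ((q Y : ℤ) ^ m) := IsUnit.of_mul_eq_one z (by rw [mul_comm]; exact h8)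
    have h10 : m ≠ 0 := by omega
    have h11 := (isUnit_pow_iff h10).1 h9
    rw [Int.isUnit_iff] at h11
    omega
  · obtain ⟨m, rfl⟩ := Int.eq_ofNat_of_zero_le hc
    have h4 := hw n m I (by rw [h3]; exact zpow_natCast _ _)
    exact hn (by omega)

/-- The Frobenius is diagonalisable. -/
theorem diag (Y : RedAV p ν) (n : ℕ) (x : Ω) (f : Coh Ω Y n)
    (h : Fr Ω Y n (Fr Ω Y n f - x • f) = x • (Fr Ω Y n f - x • f)) : Fr Ω Y n f = x • f := by
  obtain ⟨W, _, e, lam, he, hint, hw⟩ := exists_eigen Ω Y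
  rw [← sub_eq_zero]
  refine Basis.ext_alternating e fun I hI => ?_
  set g : Coh Ω Y n := Fr Ω Y n f - x • f with hg
  have h1 : (∏ k, lam (I k)) * g (fun k => e (I k)) = x * g (fun k => e (I k)) := by
    rw [← Fr_e e lam he n g I, h]
    rfl
  have h2 : g (fun k => e (I k)) = (∏ k, lam (I k)) * f (fun k => e (I k)) -
      x * f (fun k => e (I k)) := by
    rw [← Fr_e e lam he n f I, hg]
    rfl
  by_contra h3
  have h4 : ∏ k, lam (I k) = x := mul_right_cancel₀ h3 h1
  apply h3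
  rw [h2, h4, sub_self]
  rfl

end

end Pool.Agent.W495.FM.In
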