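import Pool.Agent.W495.FM.HomDefs
import Pool.Agent.W495.FM.HomFive
import Pool.Agent.W495.FM.Main
import Pool.Agent.W495.FM.Higher
import Pool.Agent.W495.FM.Weight

/-!
# The conjecture of Tate and Beilinson for the class generated by small abelian varieties
-/

set_option autoImplicit false
set_option linter.unusedSectionVars false
set_option linter.unusedVariables false

namespace Pool.Agent.W495.FM

open NumberField Pool.Agent.H204R3.CM Pool.Agent.W547.KB Pool.Agent.W547.LD Module
  Pool.Agent.W495.TA
open scoped TensorProduct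

noncomputable section

variable {Ω : Type} [Field Ω] [CharZero Ω] {V : Type}

/-- Bundled linear maps. -/
def IsLin.map {A B : Type} [AddCommGroup A] [Module Ω A] [AddCommGroup B] [Module Ω B] {f : A → B}
    (h : IsLin Ω f) : A →ₗ[Ω] B := h.choose

theorem IsLin.map_apply {A B : Type} [AddCommGroup A] [Module Ω A] [AddCommGroup B] [Module Ω B]
    {f : A → B} (h : IsLin Ω f) (x : A) : h.map x = f x := (h.choose_spec x).symm

/-- Bundled additive maps. -/
def IsAdd.map {A B : Type} [AddCommGroup A] [AddCommGroup B] {f : A → B} (h : IsAdd f) : A →+ B where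
  toFun := f
  map_zero' := by
    have h1 := h 0 0
    rw [add_zero] at h1
    exact left_eq_add.1 h1
  map_add' := h

theorem IsAdd.map_apply {A B : Type} [AddCommGroup A] [AddCommGroup B] {f : A → B} (h : IsAdd f)
    (x : A) : h.map x = f x := rfl

/-- The groups of `X` in degree `i`, twist `j`. -/
def node (T : Homology Ω V) (hT : IsHomology T) (X : V) (i j : ℤ) : Node Ω :=
  haveI := hT.finite X i j
  { M := T.M X i j
    E := T.E X i j
    φ := (hT.lin X i j).map
    ρ := (hT.add X i j).map
    inv := fun x => ((hT.lin X i j).map_apply _).trans (hT.frob_reg X i j x) }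

theorem tb_iff (T : Homology Ω V) (hT : IsHomology T) (X : V) :
    TB T X ↔ ∀ i j, (node T hT X i j).Good := by
  unfold TB
  refine forall_congr' fun i => forall_congr' fun j => ?_
  have h1 := (node T hT X i j).good_iff
  have h2 : ∀ e, (node T hT X i j).φ e = T.frob X i j e := (hT.lin X i j).map_apply
  have h3 : ∀ e, (hT.lin X i j).map e = T.frob X i j e := (hT.lin X i j).map_apply
  rw [h1]
  refine and_congr (forall_congr' fun e => ?_) (and_congr Iff.rfl (forall_congr' fun e => ?_))
  · rw [← h3]
    exact Iff.rfl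
  · rw [← h3 (T.frob X i j e - e), ← h3 e]
    exact Iff.rfl

/-- Arrows from homomorphisms. -/
def Hom.arr {T : Homology Ω V} (hT : IsHomology T) {X X' : V} {i j i' j' : ℤ}
    (h : Hom T X i j X' i' j') : Arrow (node T hT X i j) (node T hT X' i' j') where
  f := h.add.map
  g := h.lin.map
  comm x := (h.reg x).trans (h.lin.map_apply _).symm
  frob x := by
    change (hT.lin X' i' j').map (h.lin.map x) = h.lin.map ((hT.lin X i j).map x)
    rw [IsLin.map_apply, IsLin.map_apply, IsLin.map_apply, IsLin.map_apply]
    exact h.frob x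

theorem IsExact.snd {T : Homology Ω V} {X : V} {i j : ℤ} {X' : V} {i' j' : ℤ} {X'' : V}
    {i'' j'' : ℤ} {a : Hom T X i j X' i' j'} {b : Hom T X' i' j' X'' i'' j''} (h : IsExact a b) :
    Function.Exact a.lin.map b.lin.map := by
  intro y
  rw [IsLin.map_apply, h.2 y]
  constructor
  · rintro ⟨x, hx⟩
    exact ⟨x, (a.lin.map_apply x).trans hx⟩
  · rintro ⟨x, hx⟩
    exact ⟨x, (a.lin.map_apply x).symm.trans hx⟩

theorem tb_closed {T : Homology Ω V} (hT : IsHomology T) {Z X U : V} (h : IsTriple T Z X U)
    (hX : TB T X) (hU : TB T U) : TB T Z := by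
  rw [tb_iff T hT] at hX hU ⊢
  intro i j
  obtain ⟨a, b, d, h⟩ := h j
  exact five ((b (i + 1)).arr hT) ((d i).arr hT) ((a i).arr hT) ((b i).arr hT)
    (h i).2.1.1 (h i).2.2.1 (h i).1.1 (h i).2.1.snd (h i).2.2.snd (h i).1.snd
    (hX (i + 1) j) (hU (i + 1) j) (hX i j) (hU i j)

theorem tb_total {T : Homology Ω V} (hT : IsHomology T) {Z X U : V} (h : IsTriple T Z X U)
    (hZ : TB T Z) (hU : TB T U) : TB T X := by
  rw [tb_iff T hT] at hZ hU ⊢
  intro i j
  obtain ⟨i, rfl⟩ : ∃ k, i = k + 1 := ⟨i - 1, by ring⟩
  obtain ⟨a, b, d, h⟩ := h j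
  exact five ((d (i + 1)).arr hT) ((a (i + 1)).arr hT) ((b (i + 1)).arr hT) ((d i).arr hT)
    (h (i + 1)).2.2.1 (h (i + 1)).1.1 (h i).2.1.1 (h (i + 1)).2.2.snd (h (i + 1)).1.snd
    (h i).2.1.snd
    (hU (i + 1 + 1) j) (hZ (i + 1) j) (hU (i + 1) j) (hZ i j)

theorem tb_opened {T : Homology Ω V} (hT : IsHomology T) {Z X U : V} (h : IsTriple T Z X U)
    (hZ : TB T Z) (hX : TB T X) : TB T U := by
  rw [tb_iff T hT] at hZ hX ⊢
  intro i j
  obtain ⟨i, rfl⟩ : ∃ k, i = k + 1 := ⟨i - 1, by ring⟩
  obtain ⟨a, b, d, h⟩ := h j
  exact five ((a (i + 1)).arr hT) ((b (i + 1)).arr hT) ((d i).arr hT) ((a i).arr hT)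
    (h (i + 1)).1.1 (h i).2.1.1 (h i).2.2.1 (h (i + 1)).1.snd (h i).2.1.snd (h i).2.2.snd
    (hZ (i + 1) j) (hX (i + 1) j) (hZ i j) (hX i j)

theorem tb_summand {T : Homology Ω V} (hT : IsHomology T) {I : Type} [Fintype I] {X : V}
    {Y : I → V} {r : I → ℤ} (h : IsSummandOf T X Y r) (hY : ∀ l, TB T (Y l)) : TB T X := by
  rw [tb_iff T hT]
  intro i j
  obtain ⟨s, t, h1, h2⟩ := h i j
  let B : I → Node Ω := fun l => node T hT (Y l) (i + 2 * r l) (j + r l)
  have hB : (pi B).Good := good_pi B fun l => (tb_iff T hT (Y l)).1 (hY l) _ _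
  refine good_retract (A := node T hT X i j) (B := pi B)
    { f := { toFun := fun x l => (s l).add.map x
             map_zero' := funext fun l => map_zero _
             map_add' := fun x y => funext fun l => map_add _ _ _ }
      g := LinearMap.pi fun l => (s l).lin.map
      comm := fun x => funext fun l => ((s l).arr hT).comm x
      frob := fun x => funext fun l => ((s l).arr hT).frob x }
    { f := { toFun := fun x => ∑ l, (t l).add.map (x l)
             map_zero' := by
               refine Finset.sum_eq_zero fun l _ => ?_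
               exact map_zero _
             map_add' := by
               intro x y
               rw [← Finset.sum_add_distrib]
               exact Finset.sum_congr rfl fun l _ => map_add _ _ _ }
      g := { toFun := fun x => ∑ l, (t l).lin.map (x l)
             map_add' := by
               intro x y
               rw [← Finset.sum_add_distrib]
               exact Finset.sum_congr rfl fun l _ => map_add _ _ _
             map_smul' := by
               intro c x
               rw [RingHom.id_apply, Finset.smul_sum]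
               exact Finset.sum_congr rfl fun l _ => map_smul _ _ _ }
      comm := by
        intro x
        change (hT.add X i j).map (∑ l, (t l).add.map (x l)) = ∑ l, (t l).lin.map (T.reg _ _ _ (x l))
        rw [map_sum]
        exact Finset.sum_congr rfl fun l _ => ((t l).arr hT).comm _
      frob := by
        intro x
        change (hT.lin X i j).map (∑ l, (t l).lin.map (x l)) =
          ∑ l, (t l).lin.map ((hT.lin _ _ _).map (x l))
        rw [map_sum]
        exact Finset.sum_congr rfl fun l _ => ((t l).arr hT).frob _ } h1 ?_ hB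
  intro x
  refine Eq.trans ?_ (h2 x)
  change ∑ l, (t l).lin.map ((s l).lin.map x) = _
  refine Finset.sum_congr rfl fun l _ => ?_
  rw [IsLin.map_apply, IsLin.map_apply]

variable {p : ℕ} [Fact p.Prime] {ν : PadicAlgCl p ≃+* ℂ} {Y : RedAV p ν}

/-- The generated class. -/
theorem tb_generated {T : Homology Ω V} (hT : IsHomology T) {S : V → Prop}
    (hS : ∀ X, S X → TB T X) {X : V} (hX : Generated T S X) : TB T X := by
  induction hX with
  | base X h => exact hS X h
  | summand X Y r h _ ih => exact tb_summand hT h ih
  | closed Z X U h _ _ hX hU => exact tb_closed hT h hX hU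
  | total Z X U h _ _ hZ hU => exact tb_total hT h hZ hU
  | opened Z X U h _ _ hZ hX => exact tb_opened hT h hZ hX

variable [IsAlgClosed Ω]

theorem cl_sum {C : Cycles Ω Y} (hC : IsChow C) (d : ℕ) {s : ℕ} (c : Fin s → ℚ)
    (z : Fin s → C.CH d) : C.cl d (∑ a, c a • z a) = ∑ a, ((c a : ℚ) : Ω) • C.cl d (z a) := by
  have h1 : hC.inn.cl d (∑ a, c a • z a) = ∑ a, ((c a : ℚ) : Ω) • hC.inn.cl d (z a) := by
    rw [map_sum]
    exact Finset.sum_congr rfl fun a _ => In.cl_smul (C := hC.inn) d (c a) (z a)
  exact h1

theorem Fr_smul {n : ℕ} (x : Ω) (f : Coh Ω Y n) : Fr (x • f) = x • Fr f :=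
  (In.Fr Ω Y n).map_smul x f

theorem diag' (n : ℕ) (x : Ω) (f : Coh Ω Y n) (h : Fr (Fr f - x • f) = x • (Fr f - x • f)) :
    Fr f = x • f := In.diag Y n x f h

/-- Small abelian varieties. -/
theorem tb_abelian {T : Homology Ω V} (hT : IsHomology T) {X : V} {C : Cycles Ω Y} (hC : IsChow C)
    (hTate : TateHolds C) {M : Motivic C} (hM : IsMotivic M) {g : ℕ} (hX : IsAbelian T X M g) :
    TB T X := by
  intro i j
  obtain ⟨n, rfl⟩ : ∃ n, i = 2 * (g : ℤ) - n := ⟨2 * g - i, by ring⟩
  obtain ⟨c, rfl⟩ : ∃ c, j = (g : ℤ) - c := ⟨g - j, by ring⟩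
  have hq : (q Y : Ω) ≠ 0 := by
    unfold q
    push_cast
    exact pow_ne_zero _ (by exact_mod_cast (Fact.out : p.Prime).ne_zero)
  have hreg0 : ∀ i j, T.reg X i j 0 = 0 := fun i j => (hT.add X i j).map.map_zero
  have hfr0 : ∀ i j, T.frob X i j 0 = 0 := fun i j =>
    ((hT.lin X i j).map_apply 0).symm.trans (hT.lin X i j).map.map_zero
  -- the case of vanishing groups
  have key0 : (∀ x : T.M X (2 * g - n) (g - c), x = 0) →
      (∀ e : T.E X (2 * g - n) (g - c), T.frob X _ _ e = e → e = 0) →
      (∀ e : T.E X (2 * g - n) (g - c), T.frob X _ _ (T.frob X _ _ e - e) = T.frob X _ _ e - e →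
        T.frob X _ _ e = e) →
      (∀ e, T.frob X (2 * g - n) (g - c) e = e ↔
        e ∈ Submodule.span Ω (Set.range (T.reg X (2 * g - n) (g - c)))) ∧
      (∀ (r : ℕ) (x : Fin r → T.M X (2 * g - n) (g - c)), LinearIndependent ℚ x →
        LinearIndependent Ω fun k => T.reg X (2 * g - n) (g - c) (x k)) ∧
      ∀ e, T.frob X (2 * g - n) (g - c) (T.frob X (2 * g - n) (g - c) e - e) =
        T.frob X (2 * g - n) (g - c) e - e → T.frob X (2 * g - n) (g - c) e = e := by
    intro hM0 hE0 hss
    refine ⟨fun e => ⟨fun he => ?_, fun he => ?_⟩, fun r x hx => ?_, hss⟩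
    · rw [hE0 e he]
      exact Submodule.zero_mem _
    · have h1 : Set.range (T.reg X (2 * g - n) (g - c)) ⊆ {0} := by
        rintro _ ⟨x, rfl⟩
        rw [hM0 x, hreg0]
        exact rfl
      have h2 : e = 0 := by
        have := Submodule.span_mono h1 he
        simpa using this
      rw [h2, hfr0]
    · have hr : IsEmpty (Fin r) := by
        refine ⟨fun k => ?_⟩
        exact hx.ne_zero k (hM0 _)
      exact linearIndependent_empty_type
  have hssn : ∀ m : ℕ, n = m → ∀ e : T.E X (2 * g - n) (g - c),
      T.frob X _ _ (T.frob X _ _ e - e) = T.frob X _ _ e - e → T.frob X _ _ e = e := by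
    rintro m rfl e he
    obtain ⟨β', ⟨β, hβ'⟩, ⟨hβ, -⟩, hβf⟩ := hX.coh m c
    obtain rfl : β' = β := funext hβ'
    have hqc : (q Y : Ω) ^ c ≠ 0 := zpow_ne_zero _ hq
    have h1 : ∀ e, Fr (β e) = (q Y : Ω) ^ c • β (T.frob X _ _ e) := by
      intro e
      rw [hβf, smul_smul, mul_inv_cancel₀ hqc, one_smul]
    have h2 : Fr (β e) - (q Y : Ω) ^ c • β e = (q Y : Ω) ^ c • β (T.frob X _ _ e - e) := by
      rw [h1, map_sub, smul_sub]
    have h3 : Fr (Fr (β e) - (q Y : Ω) ^ c • β e) =
        (q Y : Ω) ^ c • (Fr (β e) - (q Y : Ω) ^ c • β e) := by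
      rw [h2, Fr_smul, h1, he]
    have h6 : Fr (β e) = (q Y : Ω) ^ c • β e := diag' m _ _ h3
    have h7 : (q Y : Ω) ^ c • β (T.frob X _ _ e) = (q Y : Ω) ^ c • β e := (h1 e).symm.trans h6
    have h8 : β (T.frob X _ _ e) = β e := by
      have h9 := congrArg (fun v => ((q Y : Ω) ^ c)⁻¹ • v) h7
      simp only [smul_smul, inv_mul_cancel₀ hqc, one_smul] at h9
      exact h9
    exact hβ h8
  rcases lt_or_ge n 0 with hn | hn
  · -- negative degree
    have h0 : ∀ e : T.E X (2 * g - n) (g - c), e = 0 := hX.neg n c hn
    refine key0 ?_ (fun e _ => h0 e) (fun e _ => by rw [h0 e, hfr0])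
    intro x
    obtain ⟨f, hfa, hf⟩ := hX.motivic n c
    apply hf
    refine Eq.trans ?_ hfa.map.map_zero.symm
    by_cases h1 : n = 2 * c
    · exact hM.neg n c (by omega) _
    · exact motivic_trivial hC hTate hM n c h1 _
  · obtain ⟨m, rfl⟩ := Int.eq_ofNat_of_zero_le hn
    by_cases h1 : (m : ℤ) = 2 * c
    · -- cycles
      obtain ⟨d, rfl⟩ := Int.eq_ofNat_of_zero_le (show 0 ≤ c by omega)
      obtain rfl : m = 2 * d := by omega
      have hqd : (q Y : Ω) ^ d ≠ 0 := pow_ne_zero _ hq
      have hcast : (2 * (g : ℤ) - ((2 * d : ℕ) : ℤ)) = 2 * g - 2 * d := by push_cast; ring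
      have hss := hssn (2 * d) rfl
      rw [hcast] at hss ⊢
      obtain ⟨f', β', hfa, hf, ⟨⟨β, hβ'⟩, hβ, hβf'⟩, hreg⟩ := hX.chow d
      obtain rfl : β' = β := funext hβ'
      obtain ⟨f, hff⟩ : ∃ f : T.M X (2 * g - 2 * d) (g - d) →+ C.CH d, f' = f := ⟨hfa.map, rfl⟩
      subst hff
      have hβf : ∀ e, β (T.frob X _ _ e) = ((q Y : Ω) ^ d)⁻¹ • Fr (β e) := by
        intro e
        rw [hβf', zpow_natCast]
      have hfrob : ∀ e, T.frob X _ _ e = e ↔ IsTate d (β e) := by
        intro e
        have h2 : IsTate d (β e) ↔ Fr (β e) = (q Y : Ω) ^ d • β e := In.mem_tate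
        rw [h2]
        constructor
        · intro he
          have h3 := hβf e
          rw [he] at h3
          have h4 : (q Y : Ω) ^ d • β e = Fr (β e) := by
            conv_lhs => rw [h3]
            rw [smul_smul, mul_inv_cancel₀ hqd, one_smul]
          exact h4.symm
        · intro he
          apply hβ.1
          rw [hβf, he, smul_smul, inv_mul_cancel₀ hqd, one_smul]
      have hspan : ∀ e, e ∈ Submodule.span Ω (Set.range (T.reg X (2 * g - 2 * d) (g - d))) ↔
          β e ∈ Submodule.span Ω (Set.range (C.cl d)) := by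
        intro e
        have h5 : (Submodule.span Ω (Set.range (T.reg X (2 * g - 2 * d) (g - d)))).map β =
            Submodule.span Ω (Set.range (C.cl d)) := by
          rw [Submodule.map_span]
          congr 1
          ext v
          constructor
          · rintro ⟨_, ⟨x, rfl⟩, rfl⟩
            exact ⟨f x, (hreg x).symm⟩
          · rintro ⟨y, rfl⟩
            obtain ⟨x, rfl⟩ := hf.2 y
            exact ⟨_, ⟨x, rfl⟩, hreg x⟩
        rw [← h5]
        constructor
        · exact fun h6 => Submodule.mem_map_of_mem h6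
        · rintro ⟨e', he', hee⟩
          rwa [← hβ.1 hee]
      refine ⟨fun e => ?_, fun r x hx => ?_, hss⟩
      · rw [hfrob, hspan]
        constructor
        · intro h6
          exact hTate d _ h6
        · intro h6
          have h7 : (Submodule.span Ω (Set.range (C.cl d))) ≤ In.Tate Ω Y d := by
            rw [Submodule.span_le]
            rintro _ ⟨y, rfl⟩
            exact In.cl_mem hC.isChow_inn d y
          exact h7 h6
      · -- independence
        rcases le_or_gt d g with hd | hd
        · have hdim : HasDim Y ((g - d) + d) := by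
            rw [Nat.sub_add_cancel hd]
            exact hX.dim
          obtain ⟨s, y, z, hdual, hind, -, hexp⟩ := exists_dual hC hTate hdim
          -- coordinates
          have hx' : LinearIndependent ℚ fun k => f (x k) := by
            have h8 := hx.map' f.toRatLinearMap (LinearMap.ker_eq_bot.2 hf.1)
            exact h8
          let co : C.CH d →ₗ[ℚ] (Fin s → ℚ) :=
            { toFun := fun w a => C.int (g - d) d (y a) w
              map_add' := by
                intro v w
                obtain ⟨φ, hφ⟩ := hC.bilin_int (g - d) d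
                funext a
                simp only [hφ, map_add, Pi.add_apply]
              map_smul' := by
                intro t w
                obtain ⟨φ, hφ⟩ := hC.bilin_int (g - d) d
                funext a
                simp only [hφ, map_smul, Pi.smul_apply, RingHom.id_apply] }
          have hco : Function.Injective co := by
            intro v w hvw
            rw [← hexp v, ← hexp w]
            refine Finset.sum_congr rfl fun a _ => ?_
            exact congrArg (· • z a) (congrFun hvw a)
          have h9 : LinearIndependent ℚ fun k => co (f (x k)) :=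
            hx'.map' co (LinearMap.ker_eq_bot.2 hco)
          -- rational vectors independent over ℚ are independent over Ω
          have h10 : LinearIndependent Ω fun k => fun a => ((co (f (x k)) a : ℚ) : Ω) :=
            (linearIndependent_algebraMap_comp_iff (R := ℚ) (S := Ω)).2 h9
          have h11 : ∀ k, C.cl d (f (x k)) = ∑ a, ((co (f (x k)) a : ℚ) : Ω) • C.cl d (z a) := by
            intro k
            conv_lhs => rw [← hexp (f (x k))]
            exact cl_sum hC d _ _
          rw [Fintype.linearIndependent_iff] at h10 ⊢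
          intro t ht k
          refine h10 t ?_ k
          have h12 := congrArg β ht
          rw [map_sum, map_zero] at h12
          have h13 : ∑ a, (∑ k, t k * ((co (f (x k)) a : ℚ) : Ω)) • C.cl d (z a) = 0 := by
            rw [← h12]
            have h14 : ∀ k, β (t k • T.reg X (2 * g - 2 * d) (g - d) (x k)) =
                ∑ a, (t k * ((co (f (x k)) a : ℚ) : Ω)) • C.cl d (z a) := by
              intro k
              rw [map_smul, hreg, h11, Finset.smul_sum]
              exact Finset.sum_congr rfl fun a _ => smul_smul _ _ _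
            rw [Finset.sum_congr rfl fun k _ => h14 k, Finset.sum_comm]
            exact Finset.sum_congr rfl fun a _ => Finset.sum_smul
          have h15 := Fintype.linearIndependent_iff.1 hind _ h13
          funext a
          rw [Finset.sum_apply, Pi.zero_apply]
          exact h15 a
        · have h16 : ∀ y : C.CH d, y = 0 := chow_zero hC hX.dim hd
          have hr : IsEmpty (Fin r) := by
            refine ⟨fun k => hx.ne_zero k ?_⟩
            apply hf.1
            rw [map_zero]
            exact h16 _
          exact linearIndependent_empty_type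
    · refine key0 ?_ ?_ (hssn m rfl)
      · intro x
        obtain ⟨f, hfa, hf⟩ := hX.motivic m c
        apply hf
        refine Eq.trans ?_ hfa.map.map_zero.symm
        exact motivic_trivial hC hTate hM _ _ h1 _
      · intro e he
        obtain ⟨β', ⟨β, hβ'⟩, ⟨hβ, -⟩, hβf⟩ := hX.coh m c
        obtain rfl : β' = β := funext hβ'
        have h2 := hβf e
        rw [he] at h2
        have h3 : Fr (β e) = (q Y : Ω) ^ c • β e := by
          conv_rhs => rw [h2]
          rw [smul_smul, mul_inv_cancel₀ (zpow_ne_zero _ hq), one_smul]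
        apply hβ
        rw [map_zero]
        exact In.weight Y m c (β e) h3 h1

/-- The class generated by small abelian varieties. -/
theorem tb_small {T : Homology Ω V} (hT : IsHomology T) {X : V}
    (hX : Generated T (IsSmallAbelian p ν T) X) : TB T X := by
  refine tb_generated hT (fun X hX => ?_) hX
  obtain ⟨Y, C, M, g, hY, hC, hM, hX⟩ := hX
  exact tb_abelian hT hC (tateHolds hY hC) hM hX

end

end Pool.Agent.W495.FM
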