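import Pool.Agent.W495.FM.EtaleDefs
import Pool.Agent.W495.FM.Hom

/-!
# Étale motivic cohomology with integral coefficients
-/

set_option autoImplicit false

namespace Pool.Agent.W495.FM

open Pool.Agent.W495.TA

variable {V : Type} {Ω : Type} [Field Ω] [CharZero Ω]

/-- Motivic homology vanishes outside of the diagonal. -/
theorem motivic_zero {T : Homology Ω V} (hT : IsHomology T) {L : EtaleMotivic V}
    {P : V → ℕ → Prop} (hL : IsEtaleMotivic T L P) {X : V} {d : ℕ} (hP : P X d) (h : TB T X)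
    {i j : ℤ} (hij : i ≠ 2 * j) (x : T.M X i j) : x = 0 := by
  by_contra hx
  have h1 : LinearIndependent ℚ (fun _ : Fin 1 => x) :=
    LinearIndependent.of_subsingleton 0 hx
  have h2 := ((h i j).2.1 1 (fun _ => x) h1).ne_zero 0
  exact h2 (hL.pure X d hP i j hij _ (hT.frob_reg X i j x))

/-- The étale motivic cohomology is finitely generated. -/
theorem et_fg {T : Homology Ω V} (hT : IsHomology T) {L : EtaleMotivic V}
    {P : V → ℕ → Prop} (hL : IsEtaleMotivic T L P) {X : V} {d : ℕ} (hP : P X d) (h : TB T X)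
    {i : ℤ} {n : ℕ} (hin : i ≠ 2 * n + 2) : AddGroup.FG (L.Et X i n) := by
  obtain ⟨δ, a, ha⟩ := hL.exact X d hP i n
  have hinj : Function.Injective a := by
    rw [injective_iff_map_eq_zero]
    intro y hy
    obtain ⟨x, rfl⟩ := (ha y).1 hy
    rw [motivic_zero hT hL hP h (by omega) x, map_zero]
  have h1 : AddGroup.FG (L.W X i n) := hL.finite X d hP h i n
  have h2 : Module.Finite ℤ (L.W X i n) := Module.Finite.iff_addGroup_fg.2 h1
  have h3 : Module.Finite ℤ (L.Et X i n) := Module.Finite.of_injective a.toIntLinearMap hinj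
  exact Module.Finite.iff_addGroup_fg.1 h3

/-- A finitely generated torsion group is finite. -/
theorem finite_of_fg {A : Type} [AddCommGroup A] (h : AddGroup.FG A)
    (h' : ∀ x : A, ∃ m : ℕ, 0 < m ∧ m • x = 0) : Finite A := by
  have h2 : Module.Finite ℤ A := Module.Finite.iff_addGroup_fg.2 h
  refine Module.finite_of_fg_torsion A ?_
  intro x
  obtain ⟨m, hm, hx⟩ := h' x
  refine ⟨⟨(m : ℤ), mem_nonZeroDivisors_of_ne_zero (by exact_mod_cast hm.ne')⟩, ?_⟩
  change (m : ℤ) • x = 0
  rw [natCast_zsmul]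
  exact hx

variable [IsAlgClosed Ω] {p : ℕ} [Fact p.Prime] {ν : PadicAlgCl p ≃+* ℂ}

/-- The unramified cohomology is finite. -/
theorem unramified_finite {T : Homology Ω V} (hT : IsHomology T) {L : EtaleMotivic V}
    {P : V → ℕ → Prop} (hL : IsEtaleMotivic T L P) {N : V → Type} [∀ X, AddCommGroup (N X)]
    (hN : IsUnramified L P N) {X : V} {d : ℕ} (hP : P X d)
    (hX : Generated T (IsSmallAbelian p ν T) X) : Finite (N X) := by
  obtain ⟨b, hb⟩ := hN.quotient X d hP
  have h1 : AddGroup.FG (L.Et X 4 2) := et_fg hT hL hP (tb_small hT hX) (by norm_num)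
  have h2 : AddGroup.FG (N X) := AddGroup.fg_of_surjective hb
  exact finite_of_fg h2 (hN.torsion X d hP)

end Pool.Agent.W495.FM
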