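import Pool.Agent.W495.FM.BassDefs
import Pool.Agent.W495.FM.Etale

/-!
# Finite generation of `K`-groups
-/

set_option autoImplicit false

namespace Pool.Agent.W495.FM

open Pool.Agent.W495.TA

variable {V : Type} {Ω : Type} [Field Ω] [CharZero Ω]

/-- The `K`-groups are finitely generated. -/
theorem k_fg {T : Homology Ω V} (hT : IsHomology T) {L : EtaleMotivic V} {D : KData V}
    {P : V → ℕ → Prop} (hL : IsEtaleMotivic T L P) (hD : IsKTheory T L D P) {X : V} {d : ℕ}
    (hP : P X d) (h : TB T X) {n : ℕ} (hn : d ≤ n + 2 ∨ (d ≤ n + 3 ∧ d ≤ 4)) :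
    AddGroup.FG (D.K X n) := by
  refine hD.spectral X d hP n fun i hi => ?_
  obtain ⟨f, hf⟩ := hD.etale X d hP i n (by omega)
  have h1 : AddGroup.FG (L.Et X (2 * i - n) i) := et_fg hT hL hP h (by omega)
  have h2 : Module.Finite ℤ (L.Et X (2 * i - n) i) := Module.Finite.iff_addGroup_fg.2 h1
  have h3 : Module.Finite ℤ (D.CH X i n) := Module.Finite.of_injective f.toIntLinearMap hf
  exact Module.Finite.iff_addGroup_fg.1 h3

/-- The higher `K`-groups are finite. -/
theorem k_finite {T : Homology Ω V} (hT : IsHomology T) {L : EtaleMotivic V} {D : KData V}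
    {P : V → ℕ → Prop} (hL : IsEtaleMotivic T L P) (hD : IsKTheory T L D P) {X : V} {d : ℕ}
    (hP : P X d) (h : TB T X) {n : ℕ} (hn : d ≤ n + 2 ∨ (d ≤ n + 3 ∧ d ≤ 4)) (hn0 : 0 < n) :
    Finite (D.K X n) := by
  refine finite_of_fg (k_fg hT hL hD hP h hn) (hD.rational X d hP n fun i x => ?_)
  exact motivic_zero hT hL hP h (by omega) x

end Pool.Agent.W495.FM
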