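import Pool.Agent.W495.FM.EtaleDefs

/-!
# Algebraic `K`-groups and higher Chow groups: definitions
-/

set_option autoImplicit false

namespace Pool.Agent.W495.FM

/-- Data of the higher Chow groups `CH X i n = CH^i(X, n) = H^(2 i - n)(X, ℤ(i))` and of the algebraic
`K`-groups `K X n = K_n(X)` of the schemes `X : V`. -/
structure KData (V : Type) where
  CH : V → ℕ → ℕ → Type
  [cgrp : ∀ X i n, AddCommGroup (CH X i n)]
  K : V → ℕ → Type
  [kgrp : ∀ X n, AddCommGroup (K X n)]

attribute [instance] KData.cgrp KData.kgrp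

/-- Known properties for the smooth projective schemes `X` of dimension `d` over a finite field
(predicate `P X d`). -/
structure IsKTheory {V : Type} {Ω : Type} [Field Ω] (T : Homology Ω V) (L : EtaleMotivic V)
    (D : KData V) (P : V → ℕ → Prop) : Prop where
  /-- the homomorphism from `CH^i(X, n)` to `H^(2 i - n)(X_et, ℤ(i))` is injective if `i ≤ n + 2`
  (Beilinson-Lichtenbaum: Voevodsky, Rost, Geisser, Levine), if `i > d` (cohomological dimension), and
  if `i = d ≤ 4` (Kato's conjecture: Jannsen, Kerz, Saito) -/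
  etale : ∀ X d, P X d → ∀ i n : ℕ, (i ≤ n + 2 ∨ d < i ∨ (i = d ∧ d ≤ 4)) →
    ∃ f : D.CH X i n →+ L.Et X (2 * i - n) i, Function.Injective f
  /-- the motivic spectral sequence: `K_n(X)` has a finite filtration whose graded pieces are
  subquotients of the groups `CH^i(X, n)`, `0 ≤ i ≤ n + d` (Friedlander, Levine, Suslin) -/
  spectral : ∀ X d, P X d → ∀ n : ℕ, (∀ i ≤ n + d, AddGroup.FG (D.CH X i n)) →
    AddGroup.FG (D.K X n)
  /-- `K_n(X) ⊗ ℚ` is the sum of the groups `H^(2 i - n)(X, ℚ(i))` -/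
  rational : ∀ X d, P X d → ∀ n : ℕ,
    (∀ (i : ℕ) (x : T.M X (2 * d - (2 * i - n)) (d - i)), x = 0) →
      ∀ x : D.K X n, ∃ m : ℕ, 0 < m ∧ m • x = 0

end Pool.Agent.W495.FM
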