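import Pool.Agent.W495.FM.Dual

/-!
# From the definitions to their bundled form
-/

set_option autoImplicit false
set_option linter.unusedSectionVars false
set_option linter.unusedVariables false

namespace Pool.Agent.W495.FM

open NumberField Pool.Agent.H204R3.CM Pool.Agent.W547.KB Pool.Agent.W547.LD Module
  Pool.Agent.W495.TA Polynomial
open scoped TensorProduct

noncomputable section

variable {p : ℕ} [Fact p.Prime] {ν : PadicAlgCl p ≃+* ℂ} {Ω : Type} [Field Ω] [CharZero Ω]
  {Y : RedAV p ν} {C : Cycles Ω Y}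

/-- The bundled form. -/
def IsChow.inn (hC : IsChow C) : In.Cycles Ω Y where
  CH := C.CH
  gCH := C.grp
  mCH := C.mod
  Corr := C.Corr
  ring := C.ring
  cl j := { toFun := C.cl j
            map_zero' := by
              have h := hC.cl_add j 0 0
              rw [add_zero] at h
              exact left_eq_add.1 h
            map_add' := hC.cl_add j }
  int {i j} _ := (hC.bilin_int i j).choose
  act j := (hC.rep j).choose
  actH n := (hC.repH n).choose
  frob := C.frob
  prod {i j} _ := C.prod i j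
  pair {i j} _ := (hC.bilin i j).choose

theorem IsChow.act_inn (hC : IsChow C) (j : ℕ) (c : C.Corr) (x : C.CH j) :
    hC.inn.act j c x = C.act j c x := ((hC.rep j).choose_spec c x).symm

theorem IsChow.actH_inn (hC : IsChow C) (n : ℕ) (c : C.Corr) (f : Coh Ω Y n) :
    hC.inn.actH n c f = C.actH n c f := ((hC.repH n).choose_spec c f).symm

theorem IsChow.int_inn (hC : IsChow C) {i j : ℕ} (h : HasDim Y (i + j)) (y : C.CH i)
    (z : C.CH j) : hC.inn.int h y z = C.int i j y z := ((hC.bilin_int i j).choose_spec y z).symm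

theorem IsChow.pair_inn (hC : IsChow C) {i j : ℕ} (h : HasDim Y (i + j)) (f : Coh Ω Y (2 * i))
    (g : Coh Ω Y (2 * j)) : hC.inn.pair h f g = C.pair i j f g :=
  ((hC.bilin i j).choose_spec f g).symm

theorem IsChow.isChow_inn (hC : IsChow C) : In.IsChow hC.inn where
  act_cl j c x := (congrArg (C.cl j) (hC.act_inn j c x)).trans
    ((hC.act_cl j c x).trans (hC.actH_inn _ _ _).symm)
  frob_coh n f := (hC.actH_inn n _ f).trans (hC.frob_coh n f)
  frob_chow j x := (hC.act_inn j _ x).trans (hC.frob_chow j x)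
  duality {i j} h f hf := hC.perfect i j h f fun g => (hC.pair_inn h f g).symm.trans (hf g)
  symm {i j} h h' f g := (hC.pair_inn h f g).trans
    ((hC.symm i j h f g).trans (hC.pair_inn h' g f).symm)
  frob_pair {i j} h f g := (hC.pair_inn h _ _).trans
    ((hC.frob_pair i j h f g).trans (congrArg _ (hC.pair_inn h f g).symm))
  int_cl {i j} h y z := (congrArg (fun t : ℚ => (t : Ω)) (hC.int_inn h y z)).trans
    ((hC.int_cl i j h y z).trans (hC.pair_inn h _ _).symm)
  prod_chow {i j} h y z x := (hC.act_inn j _ x).trans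
    ((hC.prod_chow i j h y z x).trans (congrArg (fun t : ℚ => t • z) (hC.int_inn h y x).symm))
  prod_coh {i j} h y z f := (hC.actH_inn _ _ f).trans
    ((hC.prod_coh i j h y z f).trans
      (congrArg (fun t : Ω => t • C.cl j z) (hC.pair_inn h (C.cl i y) f).symm))
  prod_coh_ne {i j n} h y z hn := by
    ext1 f
    exact (hC.actH_inn n _ f).trans (hC.prod_coh_ne i j n h hn y z f)
  nilpotent c hc := by
    refine hC.nilpotent c fun n f => ?_
    exact (hC.actH_inn n c f).symm.trans (LinearMap.congr_fun (hc n) f)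

/-- The Tate conjecture for `Y` over the ground field. -/
def TateHolds (C : Cycles Ω Y) : Prop :=
  ∀ j f, IsTate j f → f ∈ Submodule.span Ω (Set.range (C.cl j))

theorem IsChow.tate_inn (hC : IsChow C) (hT : TateHolds C) : In.TateHolds hC.inn :=
  fun j f hf => hT j f hf

variable [IsAlgClosed Ω]

/-- Dual bases of cycles. -/
theorem exists_dual (hC : IsChow C) (hT : TateHolds C) {i j : ℕ} (h : HasDim Y (i + j)) :
    ∃ (r : ℕ) (y : Fin r → C.CH i) (z : Fin r → C.CH j),
      (∀ a b, C.int i j (y a) (z b) = if a = b then 1 else 0) ∧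
      (LinearIndependent Ω fun a => C.cl j (z a)) ∧
      (∀ f, IsTate j f ↔ f ∈ Submodule.span Ω (Set.range fun a => C.cl j (z a))) ∧
      ∀ x, ∑ a, C.int i j (y a) x • z a = x := by
  obtain ⟨r, y, z, hd⟩ := In.exists_dual hC.isChow_inn (hC.tate_inn hT) h
  refine ⟨r, y, z, ?_, hd.indep, ?_, ?_⟩
  · intro a b
    exact (hC.int_inn h (y a) (z b)).symm.trans (hd.dual a b)
  · intro f
    have h1 := hd.span
    constructor
    · intro hf
      have h2 : f ∈ In.Tate Ω Y j := hf
      rw [← h1] at h2
      exact h2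
    · intro hf
      have h2 : f ∈ In.Tate Ω Y j := by
        rw [← h1]
        exact hf
      exact h2
  · intro x
    have h2 := hd.expand_cycle hC.isChow_inn (hC.tate_inn hT) x
    refine Eq.trans (Finset.sum_congr rfl fun a _ => ?_) h2
    exact congrArg (fun t : ℚ => t • z a) (hC.int_inn h (y a) x).symm

theorem num_trivial (hC : IsChow C) (hT : TateHolds C) {i j : ℕ} (h : HasDim Y (i + j))
    (x : C.CH j) (hx : ∀ y : C.CH i, C.int i j y x = 0) : x = 0 :=
  In.num_trivial hC.isChow_inn (hC.tate_inn hT) h x fun y => (hC.int_inn h y x).trans (hx y)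

theorem hom_trivial (hC : IsChow C) (hT : TateHolds C) {i j : ℕ} (h : HasDim Y (i + j))
    (x : C.CH j) (hx : C.cl j x = 0) : x = 0 :=
  In.hom_trivial hC.isChow_inn (hC.tate_inn hT) h x hx

/-- A representation of the correspondences on which the Frobenius endomorphism acts as
multiplication by `q ^ j` and products of cycles act as zero vanishes. -/
theorem module_trivial (hC : IsChow C) (hT : TateHolds C) {T : Type} [AddCommGroup T] [Module ℚ T]
    (φ : C.Corr → T → T) (hrep : IsRep ℚ φ) (j : ℕ)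
    (hφ : ∀ x, φ C.frob x = (q Y : ℚ) ^ j • x)
    (hprod : ∀ i k, HasDim Y (i + k) → ∀ y z x, φ (C.prod i k y z) x = 0) (x : T) : x = 0 := by
  obtain ⟨ψ, hψ⟩ := hrep
  exact In.module_trivial hC.isChow_inn (hC.tate_inn hT) ψ j
    (fun x => (hψ C.frob x).symm.trans (hφ x))
    (fun i k h y z x => (hψ (C.prod i k y z) x).symm.trans (hprod i k h y z x)) x

/-- There are no cycles of codimension above the dimension. -/
theorem chow_zero (hC : IsChow C) {g j : ℕ} (hg : HasDim Y g) (hj : g < j) (x : C.CH j) :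
    x = 0 := by
  obtain ⟨R, hR, hR0, hRT⟩ := In.exists_R Ω Y j
  obtain ⟨N, hN⟩ := In.nil_of_gt hC.isChow_inn hg hj hR0
  obtain ⟨ψ, hψ⟩ := hC.rep j
  have hK : ((R.eval ((q Y ^ j : ℕ) : ℤ) : ℤ) : ℚ) ≠ 0 := by exact_mod_cast hR
  have h1 : ∀ x, ψ (aeval C.frob R) x = ((R.eval ((q Y ^ j : ℕ) : ℤ) : ℤ) : ℚ) • x := by
    intro x
    refine In.act_aeval ψ C.frob _ (fun x => ?_) R x
    rw [← hψ, hC.frob_chow]
    push_cast
    rfl
  have h2 : ∀ (m : ℕ) (x : C.CH j), (ψ ((aeval C.frob R) ^ m)) x =
      (((R.eval ((q Y ^ j : ℕ) : ℤ) : ℤ) : ℚ)) ^ m • x := by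
    intro m
    induction m with
    | zero => intro x; rw [pow_zero, pow_zero, map_one, one_smul]; rfl
    | succ m ih =>
      intro x
      rw [pow_succ, map_mul, Module.End.mul_apply, h1, map_smul, ih, smul_smul, ← pow_succ']
  have h3 := h2 N x
  have h4 : (aeval C.frob R : C.Corr) ^ N = 0 := hN
  rw [h4, map_zero, LinearMap.zero_apply] at h3
  exact (smul_eq_zero.1 h3.symm).resolve_left (pow_ne_zero _ hK)

end

end Pool.Agent.W495.FM
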