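import Pool.Agent.W495.TA.Defs

/-!
# Cycles on abelian varieties over finite fields: definitions

`Y : RedAV p ν` is an abelian variety over the field with `q = p ^ a` elements (see `RedAV`). Its
`ℓ`-adic cohomology of degree `n`, with coefficients in an algebraically closed field `Ω` that
contains `ℚ_ℓ`, is the space of alternating `n`-forms on the Tate module.
-/

set_option autoImplicit false

namespace Pool.Agent.W495.FM

open NumberField Pool.Agent.H204R3.CM Pool.Agent.W547.KB Pool.Agent.W547.LD Module
  Pool.Agent.W495.TA
open scoped TensorProduct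

noncomputable section

variable {p : ℕ} [Fact p.Prime] {ν : PadicAlgCl p ≃+* ℂ}

/-- The number of elements of the ground field of `Y`. -/
def q (Y : RedAV p ν) : ℕ := p ^ Y.a

/-- The dimension of `Y` is `g`: the Tate module has dimension `2 g`. -/
def HasDim (Y : RedAV p ν) (g : ℕ) : Prop := finrank ℚ Y.X.H1 = 2 * g

/-- The factor is supersingular: a power of its Frobenius endomorphism is a power of `p`. -/
def IsSupersingular (Y : RedAV p ν) (i : Y.X.I) : Prop :=
  ∃ s : ℕ, 0 < s ∧ (Y.π i) ^ (2 * s) = ((p : (Y.X.factor i).E) ^ Y.a) ^ s

/-- The two factors are (over an algebraic closure) powers of isogenous abelian varieties: an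
isomorphism of the CM fields takes a power of the Frobenius endomorphism of the one to the same power
of the Frobenius endomorphism of the other. -/
def IsIsogenous (Y : RedAV p ν) (i k : Y.X.I) : Prop :=
  ∃ (e : (Y.X.factor i).E ≃+* (Y.X.factor k).E) (s : ℕ), 0 < s ∧ e ((Y.π i) ^ s) = (Y.π k) ^ s

/-- The factors of `Y` have dimension at most three, and any two factors whose CM fields have the same
Galois closure over `ℚ` (in the field of complex numbers) are isogenous, unless these CM fields are
Galois over `ℚ` or one of the factors is supersingular. -/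
def HasSmallFactors (Y : RedAV p ν) : Prop :=
  (∀ i, finrank ℚ (Y.X.factor i).E ≤ 6) ∧
  ∀ i k, IntermediateField.normalClosure ℚ (Y.X.factor i).E ℂ =
    IntermediateField.normalClosure ℚ (Y.X.factor k).E ℂ →
      IsGalois ℚ (Y.X.factor i).E ∨ IsSupersingular Y i ∨ IsSupersingular Y k ∨ IsIsogenous Y i k

/-- The abelian variety `Y` is of one of the following kinds: its dimension is at most four; or it is
(over an algebraic closure) isogenous to the product of a power of a simple abelian variety of
dimension at most five and of a supersingular abelian variety; or it is a product of abelian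
varieties of dimension at most three, two of which are isogenous if their CM fields have the same
Galois closure over `ℚ`, unless these fields are Galois over `ℚ` or one of the two is supersingular. -/
def IsSmall (Y : RedAV p ν) : Prop :=
  finrank ℚ Y.X.H1 ≤ 8 ∨
  (∃ (A : CMPair) (b : ℕ) (ϖ : A.E), Module.finrank ℚ A.E ≤ 10 ∧ 0 < b ∧ IsFrobenius p ν A b ϖ ∧
    IsPowerTimesSupersingular A b ϖ Y) ∨ HasSmallFactors Y

variable (Ω : Type) [Field Ω] [CharZero Ω]

/-- The cohomology of degree `n`. -/
def Coh (Y : RedAV p ν) (n : ℕ) : Type := (TM Ω Y) [⋀^Fin n]→ₗ[Ω] Ω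

instance (Y : RedAV p ν) (n : ℕ) : AddCommGroup (Coh Ω Y n) :=
  (AlternatingMap.instAddCommGroup : AddCommGroup ((TM Ω Y) [⋀^Fin n]→ₗ[Ω] Ω))

instance (Y : RedAV p ν) (n : ℕ) : Module Ω (Coh Ω Y n) :=
  (AlternatingMap.instModule : Module Ω ((TM Ω Y) [⋀^Fin n]→ₗ[Ω] Ω))

variable {Ω}

/-- The action of the Frobenius endomorphism on the cohomology (pull-back). -/
def Fr {Y : RedAV p ν} {n : ℕ} (f : Coh Ω Y n) : Coh Ω Y n :=
  AlternatingMap.compLinearMap (R := Ω) (M₂ := TM Ω Y) f (F Ω Y)

/-- The class `f` of degree `2 j` is a Tate class over the ground field: the Frobenius endomorphism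
multiplies it by `q ^ j`. -/
def IsTate {Y : RedAV p ν} (j : ℕ) (f : Coh Ω Y (2 * j)) : Prop := IsTateClass Ω Y 1 j f

/-- The class `f` belongs to the system generated by Tate classes of degree two and reductions of
split Weil classes (see `Alg`). -/
def IsGenerated {Y : RedAV p ν} (j : ℕ) (f : Coh Ω Y (2 * j)) : Prop := Alg Ω Y (Fin (2 * j)) f

/-- `f` is a representation of the ring `A` on the vector space `V`. -/
def IsRep (K : Type) {A V : Type} [Field K] [Ring A] [AddCommGroup V] [Module K V]
    (f : A → V → V) : Prop :=
  ∃ φ : A →+* Module.End K V, ∀ a v, f a v = φ a v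

/-- `f` is bilinear. -/
def IsBilin (K : Type) {V W : Type} [Field K] [AddCommGroup V] [Module K V] [AddCommGroup W]
    [Module K W] (f : V → W → K) : Prop :=
  ∃ φ : V →ₗ[K] W →ₗ[K] K, ∀ v w, f v w = φ v w

variable (Ω)

/-- Data of a theory of algebraic cycles on the abelian variety `Y` (all groups with rational
coefficients): the Chow groups `CH j` of cycles of codimension `j`, the ring `Corr` of correspondences
of degree zero from `Y` to itself (the Chow group `CH^g(Y × Y)`, with composition), cycle classes
`cl`, the intersection number `int y z` of cycles of complementary codimension, the operations `act`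
and `actH` of the correspondences on the Chow groups and on the cohomology, the correspondence `frob`
given by the Frobenius endomorphism, the products `prod y z = y × z` in `CH^g(Y × Y)`, and the
pairing `pair` of cohomology classes of complementary degree given by the cup product and the
trace map. -/
structure Cycles (Y : RedAV p ν) where
  CH : ℕ → Type
  [grp : ∀ j, AddCommGroup (CH j)]
  [mod : ∀ j, Module ℚ (CH j)]
  Corr : Type
  [ring : Ring Corr]
  cl : ∀ j, CH j → Coh Ω Y (2 * j)
  int : ∀ i j, CH i → CH j → ℚ
  act : ∀ j, Corr → CH j → CH j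
  actH : ∀ n, Corr → Coh Ω Y n → Coh Ω Y n
  frob : Corr
  prod : ∀ i j, CH i → CH j → Corr
  pair : ∀ i j, Coh Ω Y (2 * i) → Coh Ω Y (2 * j) → Ω

attribute [instance] Cycles.grp Cycles.mod Cycles.ring

variable {Ω}

/-- Cycle classes, correspondences and the Frobenius endomorphism. -/
structure HasFrobenius {Y : RedAV p ν} (C : Cycles Ω Y) : Prop where
  cl_add : ∀ j x y, C.cl j (x + y) = C.cl j x + C.cl j y
  rep : ∀ j, IsRep ℚ (C.act j)
  repH : ∀ n, IsRep Ω (C.actH n)
  /-- the cycle class map is compatible with correspondences -/
  act_cl : ∀ j c x, C.cl j (C.act j c x) = C.actH (2 * j) c (C.cl j x)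
  /-- the Frobenius endomorphism acts on the cohomology by pull-back -/
  frob_coh : ∀ n f, C.actH n C.frob f = Fr f
  /-- the Frobenius endomorphism acts on `CH^j` as multiplication by `q ^ j` -/
  frob_chow : ∀ j x, C.act j C.frob x = (q Y : ℚ) ^ j • x

/-- Poincaré duality. -/
structure HasDuality {Y : RedAV p ν} (C : Cycles Ω Y) : Prop where
  bilin : ∀ i j, IsBilin Ω (C.pair i j)
  /-- the pairing is perfect -/
  perfect : ∀ i j, HasDim Y (i + j) → ∀ f, (∀ g, C.pair i j f g = 0) → f = 0
  /-- the pairing is symmetric -/
  symm : ∀ i j, HasDim Y (i + j) → ∀ f g, C.pair i j f g = C.pair j i g f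
  /-- the degree of the Frobenius endomorphism is `q ^ g` -/
  frob_pair : ∀ i j, HasDim Y (i + j) → ∀ f g,
    C.pair i j (Fr f) (Fr g) = (q Y : Ω) ^ (i + j) * C.pair i j f g

/-- Intersection numbers, and the operation of products of cycles. -/
structure HasProducts {Y : RedAV p ν} (C : Cycles Ω Y) : Prop where
  bilin_int : ∀ i j, IsBilin ℚ (C.int i j)
  /-- intersection numbers are given by the cup product of the classes -/
  int_cl : ∀ i j, HasDim Y (i + j) → ∀ y z, (C.int i j y z : Ω) = C.pair i j (C.cl i y) (C.cl j z)
  /-- the correspondence `y × z` maps `x` to the multiple of `z` by the intersection number -/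
  prod_chow : ∀ i j, HasDim Y (i + j) → ∀ y z x,
    C.act j (C.prod i j y z) x = C.int i j y x • z
  /-- the operation of `y × z` on the cohomology of degree `2 j` -/
  prod_coh : ∀ i j, HasDim Y (i + j) → ∀ y z f,
    C.actH (2 * j) (C.prod i j y z) f = C.pair i j (C.cl i y) f • C.cl j z
  /-- the operation of `y × z` on the cohomology of other degrees -/
  prod_coh_ne : ∀ i j n, HasDim Y (i + j) → n ≠ 2 * j → ∀ y z f,
    C.actH n (C.prod i j y z) f = 0

/-- The properties of the theory of algebraic cycles modulo rational equivalence. -/
structure IsChow {Y : RedAV p ν} (C : Cycles Ω Y) : Prop extends HasFrobenius C, HasDuality C,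
    HasProducts C where
  /-- homologically trivial correspondences are nilpotent (Kimura; the Chow motives of abelian
  varieties are finite-dimensional) -/
  nilpotent : ∀ c, (∀ n f, C.actH n c f = 0) → IsNilpotent c
  /-- the Tate classes over the ground field that are generated by Tate classes of degree two and by
  reductions of split Weil classes are linear combinations of classes of algebraic cycles (theorems
  of Tate and Markman) -/
  algebraic : ∀ j f, IsGenerated j f → IsTate j f → f ∈ Submodule.span Ω (Set.range (C.cl j))

end

end Pool.Agent.W495.FM
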