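import Pool.Agent.W495.FM.SpreadDefs

/-!
# Varieties of bounded dimension
-/

set_option autoImplicit false

namespace Pool.Agent.W495.FM

variable {Ω : Type} [Field Ω] {V : Type}

/-- The variety `Z` has dimension at most `d`: the homology in degrees above `2 d` vanishes, and in
degree `2 d` it is a permutation representation spanned by the classes of the irreducible components of
dimension `d`, so the invariant elements are combinations of classes of cycles, and the eigenvalue one
is semisimple. -/
def HasDimLE (T : Homology Ω V) (Z : V) (d : ℤ) : Prop :=
  (∀ n j, 2 * d < n → ∀ e : T.E Z n j, e = 0) ∧ IsOnto T Z d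

/-- Bijectivity of the cycle class maps on the complement of a closed subvariety of dimension at most
`d`, for cycles of dimension at least `d`. -/
def IsoAbove (T : Homology Ω V) (S : V → Prop) : Prop :=
  ∀ (Z X U : V) (d : ℤ), IsTriple T Z X U → Generated T S X → HasDimLE T Z d →
    ∀ i, d ≤ i → IsIso T U i

end Pool.Agent.W495.FM
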