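import Pool.Agent.W495.FM.SpreadDefs
import Pool.Agent.W495.FM.Hom

/-!
# Cycle classes on open subvarieties and on images
-/

set_option autoImplicit false
set_option linter.unusedSectionVars false
set_option linter.unusedVariables false

namespace Pool.Agent.W495.FM

open Module Pool.Agent.W495.TA
open scoped TensorProduct

noncomputable section

variable {Ω : Type} [Field Ω] [CharZero Ω] {V : Type}

/-- The extension of the regulator is surjective onto the generalised eigenspace. -/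
def Node.Onto (A : Node Ω) : Prop := ∀ e, A.InG e → ∃ t, A.lam t = e

theorem Node.mem_span (A : Node Ω) (e : A.E) :
    e ∈ Submodule.span Ω (Set.range A.ρ) ↔ ∃ t, A.lam t = e := by
  constructor
  · intro he
    induction he using Submodule.span_induction with
    | mem x hx =>
      obtain ⟨y, rfl⟩ := hx
      exact ⟨1 ⊗ₜ y, by rw [A.lam_tmul, one_smul]⟩
    | zero => exact ⟨0, map_zero _⟩
    | add x y _ _ hx hy =>
      obtain ⟨t, ht⟩ := hx
      obtain ⟨s, hs⟩ := hy
      exact ⟨t + s, by rw [map_add, ht, hs]⟩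
    | smul c x _ hx =>
      obtain ⟨t, ht⟩ := hx
      exact ⟨c • t, by rw [map_smul, ht]⟩
  · rintro ⟨t, rfl⟩
    induction t using TensorProduct.induction_on with
    | zero => rw [map_zero]; exact Submodule.zero_mem _
    | tmul c x =>
      rw [A.lam_tmul]
      exact Submodule.smul_mem _ _ (Submodule.subset_span ⟨x, rfl⟩)
    | add x y hx hy => rw [map_add]; exact Submodule.add_mem _ hx hy

theorem Node.onto_iff (A : Node Ω) : A.Onto ↔
    (∀ e, A.φ e = e → e ∈ Submodule.span Ω (Set.range A.ρ)) ∧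
    ∀ e, A.φ (A.φ e - e) = A.φ e - e → A.φ e = e := by
  have hφ : ∀ e, (A.φ - 1) e = A.φ e - e := fun e => rfl
  constructor
  · intro h
    refine ⟨fun e he => ?_, fun e he => ?_⟩
    · rw [A.mem_span]
      refine h e ⟨1, ?_⟩
      rw [pow_one, hφ, he, sub_self]
    · obtain ⟨t, rfl⟩ := h e ⟨2, by
        rw [pow_two, Module.End.mul_apply, hφ, hφ, he, sub_self]⟩
      exact A.φ_lam t
  · rintro ⟨h1, h3⟩ e ⟨k, hk⟩
    rw [← A.mem_span]
    apply h1
    induction k generalizing e with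
    | zero =>
      have : e = 0 := hk
      rw [this, map_zero]
    | succ k ih =>
      rw [pow_succ, Module.End.mul_apply, hφ] at hk
      exact h3 e (ih _ hk)

/-- The five lemma with weaker assumptions. -/
theorem five' {A₁ A₂ A₃ A₄ A₅ : Node Ω} (a₁ : Arrow A₁ A₂) (a₂ : Arrow A₂ A₃) (a₃ : Arrow A₃ A₄)
    (a₄ : Arrow A₄ A₅) (e₁ : Function.Exact a₁.f a₂.f) (e₂ : Function.Exact a₂.f a₃.f)
    (e₃ : Function.Exact a₃.f a₄.f) (e₁' : Function.Exact a₁.g a₂.g)
    (e₂' : Function.Exact a₂.g a₃.g) (e₃' : Function.Exact a₃.g a₄.g)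
    (h₁ : A₁.Onto) (h₂ : A₂.Good) (h₄ : A₄.Good) (h₅ : A₅.Good) : A₃.Good := by
  have t₁ := a₁.exact_ten a₂ e₁
  have t₂ := a₂.exact_ten a₃ e₂
  have t₃ := a₃.exact_ten a₄ e₃
  constructor
  · rw [injective_iff_map_eq_zero]
    intro t ht
    have h1 : a₃.ten t = 0 := by
      apply h₄.1
      rw [a₃.lam_ten, ht, map_zero, map_zero]
    obtain ⟨u, rfl⟩ := (t₂ t).1 h1
    have h2 : a₂.g (A₂.lam u) = 0 := by rw [← a₂.lam_ten, ht]
    obtain ⟨v, hv, hv'⟩ := a₁.fitting a₂ e₁' _ (A₂.inG_lam u) h2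
    obtain ⟨w, rfl⟩ := h₁ v hv
    rw [← a₁.lam_ten] at hv'
    have h3 := h₂.1 hv'
    rw [← h3]
    exact (t₁ _).2 ⟨w, rfl⟩
  · intro e he
    obtain ⟨u, hu⟩ := h₄.2 _ (a₃.inG he)
    have h1 : a₄.ten u = 0 := by
      apply h₅.1
      rw [a₄.lam_ten, hu, map_zero]
      exact (e₃' _).2 ⟨e, rfl⟩
    obtain ⟨t, rfl⟩ := (t₃ u).1 h1
    rw [a₃.lam_ten] at hu
    have h2 : a₃.g (e + -A₃.lam t) = 0 := by
      rw [map_add, map_neg, hu, add_neg_cancel]
    obtain ⟨v, hv, hv'⟩ := a₂.fitting a₃ e₂' _ (he.add (A₃.inG_lam t).neg) h2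
    obtain ⟨w, rfl⟩ := h₂.2 v hv
    refine ⟨t + a₂.ten w, ?_⟩
    rw [map_add, a₂.lam_ten, hv']
    abel

/-- Surjectivity: the four lemma. -/
theorem four {A₂ A₃ A₄ A₅ : Node Ω} (a₂ : Arrow A₂ A₃) (a₃ : Arrow A₃ A₄)
    (a₄ : Arrow A₄ A₅) (e₃ : Function.Exact a₃.f a₄.f)
    (e₂' : Function.Exact a₂.g a₃.g) (e₃' : Function.Exact a₃.g a₄.g)
    (h₂ : A₂.Onto) (h₄ : A₄.Onto) (h₅ : A₅.Good) : A₃.Onto := by
  have t₃ := a₃.exact_ten a₄ e₃
  intro e he
  obtain ⟨u, hu⟩ := h₄ _ (a₃.inG he)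
  have h1 : a₄.ten u = 0 := by
    apply h₅.1
    rw [a₄.lam_ten, hu, map_zero]
    exact (e₃' _).2 ⟨e, rfl⟩
  obtain ⟨t, rfl⟩ := (t₃ u).1 h1
  rw [a₃.lam_ten] at hu
  have h2 : a₃.g (e + -A₃.lam t) = 0 := by
    rw [map_add, map_neg, hu, add_neg_cancel]
  obtain ⟨v, hv, hv'⟩ := a₂.fitting a₃ e₂' _ (he.add (A₃.inG_lam t).neg) h2
  obtain ⟨w, rfl⟩ := h₂ v hv
  refine ⟨t + a₂.ten w, ?_⟩
  rw [map_add, a₂.lam_ten, hv']
  abel

theorem Node.Good.onto {A : Node Ω} (h : A.Good) : A.Onto := h.2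

/-- Nodes without motivic part and without eigenvalue one. -/
theorem Node.good_of_zero (A : Node Ω) (h : ∀ x : A.M, x = 0) (h' : ∀ e, A.φ e = e → e = 0) :
    A.Good := by
  constructor
  · rw [injective_iff_map_eq_zero]
    intro t ht
    clear ht
    induction t using TensorProduct.induction_on with
    | zero => rfl
    | tmul c x => rw [h x, TensorProduct.tmul_zero]
    | add x y hx hy => rw [hx, hy, add_zero]
  · rintro e ⟨k, hk⟩
    refine ⟨0, ?_⟩
    rw [map_zero]
    symm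
    induction k generalizing e with
    | zero => exact hk
    | succ k ih =>
      rw [pow_succ, Module.End.mul_apply] at hk
      have h1 := ih _ hk
      apply h'
      rw [LinearMap.sub_apply, sub_eq_zero] at h1
      exact h1

theorem onto_iff (T : Homology Ω V) (hT : IsHomology T) (X : V) (i : ℤ) :
    IsOnto T X i ↔ (node T hT X (2 * i) i).Onto := by
  rw [Node.onto_iff]
  have h3 : ∀ e, (hT.lin X (2 * i) i).map e = T.frob X (2 * i) i e := (hT.lin X (2 * i) i).map_apply
  refine and_congr (forall_congr' fun e => ?_) (forall_congr' fun e => ?_)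
  · rw [← h3]
    exact Iff.rfl
  · rw [← h3 (T.frob X (2 * i) i e - e), ← h3 e]
    exact Iff.rfl

theorem iso_iff (T : Homology Ω V) (hT : IsHomology T) (X : V) (i : ℤ) :
    IsIso T X i ↔ (node T hT X (2 * i) i).Good := by
  constructor
  · rintro ⟨h1, h2⟩
    rw [Node.good_iff]
    have h3 : ∀ e, (hT.lin X (2 * i) i).map e = T.frob X (2 * i) i e :=
      (hT.lin X (2 * i) i).map_apply
    refine ⟨fun e => ⟨fun he => ?_, fun he => ?_⟩, h2, fun e he => ?_⟩
    · exact h1.1 e ((h3 e).symm.trans he)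
    · obtain ⟨t, rfl⟩ := (Node.mem_span _ _).1 he
      exact Node.φ_lam _ t
    · have h4 := ((onto_iff T hT X i).1 h1)
      rw [Node.onto_iff] at h4
      exact h4.2 e he
  · intro h
    exact ⟨(onto_iff T hT X i).2 h.2, ((Node.good_iff _).1 h).2.1⟩

theorem TB.iso {T : Homology Ω V} (hT : IsHomology T) {X : V} (h : TB T X) (i : ℤ) :
    IsIso T X i := (iso_iff T hT X i).2 ((tb_iff T hT X).1 h _ _)

/-- The groups in degree below `2 i`. -/
theorem good_below {T : Homology Ω V} (hT : IsHomology T) (hW : HasWeights T) (X : V) {n i : ℤ}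
    (h : n < 2 * i) : (node T hT X n i).Good := by
  refine Node.good_of_zero _ (hW.motivic X n i h) ?_
  intro e he
  exact hW.weights X n i h e (((hT.lin X n i).map_apply e).symm.trans he)

/-- The complement: isomorphism. -/
theorem iso_opened {T : Homology Ω V} (hT : IsHomology T) (hW : HasWeights T) {Z X U : V}
    (h : IsTriple T Z X U) {i : ℤ} (hZ : IsOnto T Z i) (hX : IsIso T X i) : IsIso T U i := by
  rw [iso_iff T hT] at hX ⊢
  rw [onto_iff T hT] at hZ
  obtain ⟨n, hn⟩ : ∃ n, 2 * i = n + 1 := ⟨2 * i - 1, by ring⟩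
  have hlt : n < 2 * i := by omega
  rw [hn] at hX hZ ⊢
  obtain ⟨a, b, d, h⟩ := h i
  exact five' ((a (n + 1)).arr hT) ((b (n + 1)).arr hT) ((d n).arr hT) ((a n).arr hT)
    (h (n + 1)).1.1 (h n).2.1.1 (h n).2.2.1 (h (n + 1)).1.snd (h n).2.1.snd (h n).2.2.snd
    hZ hX (good_below hT hW Z hlt) (good_below hT hW X hlt)

/-- The complement: surjectivity. -/
theorem onto_opened {T : Homology Ω V} (hT : IsHomology T) (hW : HasWeights T) {Z X U : V}
    (h : IsTriple T Z X U) {i : ℤ} (hX : IsOnto T X i) : IsOnto T U i := by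
  rw [onto_iff T hT] at hX ⊢
  obtain ⟨n, hn⟩ : ∃ n, 2 * i = n + 1 := ⟨2 * i - 1, by ring⟩
  have hlt : n < 2 * i := by omega
  rw [hn] at hX ⊢
  obtain ⟨a, b, d, h⟩ := h i
  exact four ((b (n + 1)).arr hT) ((d n).arr hT) ((a n).arr hT)
    (h n).2.2.1 (h n).2.1.snd (h n).2.2.snd hX (good_below hT hW Z hlt).2
    (good_below hT hW X hlt)

/-- The union. -/
theorem onto_total {T : Homology Ω V} (hT : IsHomology T) (hW : HasWeights T) {Z X U : V}
    (h : IsTriple T Z X U) {i : ℤ} (hZ : IsOnto T Z i) (hU : IsOnto T U i) : IsOnto T X i := by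
  rw [onto_iff T hT] at hZ hU ⊢
  obtain ⟨n, hn⟩ : ∃ n, 2 * i = n + 1 := ⟨2 * i - 1, by ring⟩
  have hlt : n < 2 * i := by omega
  rw [hn] at hZ hU ⊢
  obtain ⟨a, b, d, h⟩ := h i
  exact four ((a (n + 1)).arr hT) ((b (n + 1)).arr hT) ((d n).arr hT)
    (h n).2.1.1 (h (n + 1)).1.snd (h n).2.1.snd hZ hU (good_below hT hW Z hlt)

/-- Images. -/
theorem onto_image {T : Homology Ω V} (hT : IsHomology T) {X' X : V}
    (h : IsImage T X' X) {i : ℤ} (hX : IsOnto T X' i) : IsOnto T X i := by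
  rw [onto_iff T hT] at hX ⊢
  obtain ⟨h, hh⟩ := h i
  rintro e ⟨k, hk⟩
  -- `e` belongs to the image
  have h1 : ∀ (k : ℕ) (e : T.E X (2 * i) i), (((node T hT X (2 * i) i).φ - 1) ^ k) e = 0 →
      e ∈ Set.range h.g := by
    intro k
    induction k with
    | zero =>
      intro e he
      have h2 : e = 0 := he
      rw [h2]
      exact ⟨0, ((h.lin.map_apply 0).symm.trans (map_zero _))⟩
    | succ k ih =>
      intro e he
      rw [pow_succ, Module.End.mul_apply] at he
      apply hh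
      have h3 := ih _ he
      have h4 : ((node T hT X (2 * i) i).φ - 1) e = T.frob X (2 * i) i e - e := by
        rw [LinearMap.sub_apply]
        have h5 : (node T hT X (2 * i) i).φ e = T.frob X (2 * i) i e :=
          (hT.lin X (2 * i) i).map_apply e
        rw [h5]
        rfl
      rw [h4] at h3
      exact h3
  obtain ⟨y0, hy0⟩ := h1 k e hk
  -- the zero map from the target has the image as kernel of the projection
  obtain ⟨y, hy, hye⟩ := (h.arr hT).lift_gen e ⟨k, hk⟩ y0 ((h.lin.map_apply y0).trans hy0)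
  obtain ⟨t, rfl⟩ := hX y hy
  exact ⟨(h.arr hT).ten t, by rw [(h.arr hT).lam_ten, hye]⟩

/-- Summands. -/
theorem onto_summand {T : Homology Ω V} (hT : IsHomology T) {I : Type} [Fintype I] {X : V}
    {Y : I → V} {r : I → ℤ} (h : IsSummandOf T X Y r) (hY : ∀ l i, IsOnto T (Y l) i) (i : ℤ) :
    IsOnto T X i := by
  rw [onto_iff T hT]
  intro e he
  obtain ⟨s, t, h1, h2⟩ := h (2 * i) i
  have h3 : ∀ l, (node T hT (Y l) (2 * i + 2 * r l) (i + r l)).Onto := by
    intro l
    have h4 := (onto_iff T hT (Y l) (i + r l)).1 (hY l (i + r l))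
    have h5 : 2 * (i + r l) = 2 * i + 2 * r l := by ring
    rw [h5] at h4
    exact h4
  have h6 : ∀ l, ∃ u, (node T hT (Y l) (2 * i + 2 * r l) (i + r l)).lam u =
      ((s l).arr hT).g e := fun l => h3 l _ (((s l).arr hT).inG he)
  choose u hu using h6
  refine ⟨∑ l, ((t l).arr hT).ten (u l), ?_⟩
  rw [map_sum]
  have h7 : ∀ l, (node T hT X (2 * i) i).lam (((t l).arr hT).ten (u l)) = (t l).g ((s l).g e) := by
    intro l
    rw [((t l).arr hT).lam_ten, hu]
    exact ((t l).lin.map_apply _).trans (congrArg _ ((s l).lin.map_apply e))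
  rw [Finset.sum_congr rfl fun l _ => h7 l]
  exact h2 e

/-- The class. -/
theorem onto_spread {T : Homology Ω V} (hT : IsHomology T) (hW : HasWeights T) {S : V → Prop}
    (hS : ∀ X, S X → ∀ i, IsOnto T X i) {X : V} (hX : Spread T S X) : ∀ i, IsOnto T X i := by
  induction hX with
  | base X h => exact hS X h
  | opened Z X U h _ hX => exact fun i => onto_opened hT hW h (hX i)
  | image X' X h _ hX => exact fun i => onto_image hT h (hX i)
  | total Z X U h _ _ hZ hU => exact fun i => onto_total hT hW h (hZ i) (hU i)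
  | summand X Y r h _ ih => exact fun i => onto_summand hT h ih i

variable [IsAlgClosed Ω] {p : ℕ} [Fact p.Prime] {ν : PadicAlgCl p ≃+* ℂ}

theorem onto_known {T : Homology Ω V} (hT : IsHomology T) {X : V} (hX : IsKnown p ν T X) (i : ℤ) :
    IsOnto T X i := by
  rcases hX with h | h
  · exact ((tb_small hT h).iso hT i).1
  · exact h i

/-- Open subvarieties of the generated varieties. -/
theorem iso_open {T : Homology Ω V} (hT : IsHomology T) (hW : HasWeights T) {Z X U : V}
    (h : IsTriple T Z X U) (hX : Generated T (IsSmallAbelian p ν T) X)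
    (hZ : Spread T (IsKnown p ν T) Z) (i : ℤ) : IsIso T U i :=
  iso_opened hT hW h (onto_spread hT hW (fun _ h i => onto_known hT h i) hZ i)
    ((tb_small hT hX).iso hT i)

end

end Pool.Agent.W495.FM
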