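import Pool.Agent.W495.FM.Dim
import Pool.Agent.W495.FM.Spread

/-!
# Varieties of bounded dimension: the theorem
-/

set_option autoImplicit false

namespace Pool.Agent.W495.FM

open Pool.Agent.W495.TA

variable {Ω : Type} [Field Ω] [CharZero Ω] {V : Type} [IsAlgClosed Ω] {p : ℕ} [Fact p.Prime]
  {ν : PadicAlgCl p ≃+* ℂ}

theorem onto_of_dim {T : Homology Ω V} (hT : IsHomology T) {Z : V} {d : ℤ} (h : HasDimLE T Z d)
    {i : ℤ} (hi : d ≤ i) : IsOnto T Z i := by
  rcases hi.eq_or_lt with rfl | hlt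
  · exact h.2
  · have h0 : ∀ e : T.E Z (2 * i) i, e = 0 := h.1 (2 * i) i (by omega)
    refine ⟨fun e _ => ?_, fun e _ => ?_⟩
    · rw [h0 e]
      exact Submodule.zero_mem _
    · rw [h0 e]
      exact h0 _

theorem isoAbove {T : Homology Ω V} (hT : IsHomology T) (hW : HasWeights T) :
    IsoAbove T (IsSmallAbelian p ν T) := fun _ _ _ _ h hX hZ i hi =>
  iso_opened hT hW h (onto_of_dim hT hZ hi) ((tb_small hT hX).iso hT i)

theorem onto_known_spread {T : Homology Ω V} (hT : IsHomology T) (hW : HasWeights T) {X : V}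
    (hX : Spread T (IsKnown p ν T) X) (i : ℤ) : IsOnto T X i :=
  onto_spread hT hW (fun _ h i => onto_known hT h i) hX i

end Pool.Agent.W495.FM
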