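import Pool.Agent.W495.FM.Core

/-!
# Dual bases of cycles, nilpotent correspondences, and the consequences
-/

set_option autoImplicit false
set_option linter.unusedSectionVars false
set_option linter.unusedVariables false

namespace Pool.Agent.W495.FM.In

open NumberField Pool.Agent.H204R3.CM Pool.Agent.W547.KB Pool.Agent.W547.LD Module
  Pool.Agent.W495.TA Polynomial
open scoped TensorProduct

noncomputable section

variable {p : ℕ} [Fact p.Prime] {ν : PadicAlgCl p ≃+* ℂ} {Ω : Type} [Field Ω] [IsAlgClosed Ω]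
  [CharZero Ω] {Y : RedAV p ν}

theorem finite_coh (Ω : Type) [Field Ω] [IsAlgClosed Ω] [CharZero Ω] (Y : RedAV p ν) (n : ℕ) :
    Module.Finite Ω (Coh Ω Y n) := by
  obtain ⟨W, _, e, lam, he, hint, hw⟩ := exists_eigen Ω Y
  let φ : Coh Ω Y n →ₗ[Ω] ((Fin n → W) → Ω) :=
    { toFun := fun f I => f fun k => e (I k)
      map_add' := fun f g => rfl
      map_smul' := fun c f => rfl }
  refine Module.Finite.of_injective φ ?_
  intro f g hfg
  exact Basis.ext_alternating e fun I _ => congrFun hfg I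

theorem exists_dim (Y : RedAV p ν) : ∃ g : ℕ, HasDim Y g := by
  have h2 : finrank ℚ Y.X.H1 = ∑ i, finrank ℚ (Y.X.factor i).E := Module.finrank_pi_fintype ℚ
  refine ⟨∑ i, InfinitePlace.nrComplexPlaces (Y.X.factor i).E, ?_⟩
  unfold HasDim
  rw [h2, Finset.mul_sum]
  exact Finset.sum_congr rfl fun i _ => NumberField.IsTotallyComplex.finrank _

/-- Forms of degree above the rank of the Tate module vanish. -/
theorem coh_zero (Ω : Type) [Field Ω] [IsAlgClosed Ω] [CharZero Ω] (Y : RedAV p ν) {n : ℕ}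
    (hn : finrank ℚ Y.X.H1 < n) (f : Coh Ω Y n) : f = 0 := by
  obtain ⟨W, _, e, lam, he, hint, hw⟩ := exists_eigen Ω Y
  have h1 : Fintype.card W = finrank ℚ Y.X.H1 := by
    rw [← Module.finrank_eq_card_basis e]
    exact Module.finrank_baseChange
  refine Basis.ext_alternating e fun I hI => ?_
  have h2 := Fintype.card_le_of_injective I hI
  rw [Fintype.card_fin, h1] at h2
  omega

variable {C : Cycles Ω Y}

/-- All Tate classes over the ground field are linear combinations of classes of cycles. -/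
def TateHolds (C : Cycles Ω Y) : Prop :=
  ∀ (j : ℕ) (f : Coh Ω Y (2 * j)), f ∈ Tate Ω Y j → f ∈ Submodule.span Ω (Set.range (C.cl j))

theorem cl_mem (hC : IsChow C) (j : ℕ) (x : C.CH j) : C.cl j x ∈ Tate Ω Y j := by
  rw [mem_tate, ← hC.frob_coh, ← hC.act_cl, hC.frob_chow]
  have h1 : ((q Y : ℚ) ^ j) • x = (q Y ^ j) • x := by
    rw [← Nat.cast_pow, Nat.cast_smul_eq_nsmul]
  rw [h1, map_nsmul, ← Nat.cast_smul_eq_nsmul Ω, Nat.cast_pow]

theorem cl_smul (j : ℕ) (c : ℚ) (x : C.CH j) : C.cl j (c • x) = (c : Ω) • C.cl j x := by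
  have := map_ratCast_smul (C.cl j) ℚ Ω c x
  rwa [Rat.cast_id] at this

/-- Dual bases of cycles of complementary codimension. -/
structure IsDual (C : Cycles Ω Y) {i j : ℕ} (h : HasDim Y (i + j)) {r : ℕ} (y : Fin r → C.CH i)
    (z : Fin r → C.CH j) : Prop where
  dual : ∀ a b, C.int h (y a) (z b) = if a = b then 1 else 0
  indep : LinearIndependent Ω fun a => C.cl j (z a)
  span : Submodule.span Ω (Set.range fun a => C.cl j (z a)) = Tate Ω Y j

theorem exists_dual (hC : IsChow C) (hT : TateHolds C) {i j : ℕ} (h : HasDim Y (i + j)) :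
    ∃ (r : ℕ) (y : Fin r → C.CH i) (z : Fin r → C.CH j), IsDual C h y z := by
  classical
  have h' : HasDim Y (j + i) := by rwa [add_comm]
  have hfin := finite_coh Ω Y (2 * j)
  obtain ⟨κ, a, ha, hspan, hli⟩ := exists_linearIndependent' Ω fun x : C.CH j => C.cl j x
  have : Finite κ := hli.finite
  obtain ⟨r, ⟨eq⟩⟩ := Finite.exists_equiv_fin κ
  let z : Fin r → C.CH j := fun b => a (eq.symm b)
  have hli' : LinearIndependent Ω fun b => C.cl j (z b) := hli.comp _ eq.symm.injective
  have hrange : (Set.range fun b => C.cl j (z b)) = Set.range ((fun x => C.cl j x) ∘ a) := by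
    ext f
    constructor
    · rintro ⟨b, rfl⟩
      exact ⟨eq.symm b, rfl⟩
    · rintro ⟨k, rfl⟩
      exact ⟨eq k, by simp [z]⟩
  have hspan' : Submodule.span Ω (Set.range fun b => C.cl j (z b)) = Tate Ω Y j := by
    rw [hrange, hspan]
    apply le_antisymm
    · rw [Submodule.span_le]
      rintro _ ⟨x, rfl⟩
      exact cl_mem hC j x
    · intro f hf
      exact hT j f hf
  -- the map of the cycles of complementary codimension
  let φ : C.CH i →ₗ[ℚ] (Fin r → ℚ) := LinearMap.pi fun b => (C.int h).flip (z b)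
  have hφ : LinearMap.range φ = ⊤ := by
    by_contra hne
    obtain ⟨u, hu, hle⟩ := Submodule.exists_le_ker_of_lt_top _ (lt_top_iff_ne_top.2 hne)
    let c : Fin r → ℚ := fun b => u (Pi.single b 1)
    have hu' : ∀ v : Fin r → ℚ, u v = ∑ b, v b * c b := by
      intro v
      conv_lhs => rw [pi_eq_sum_univ v]
      rw [map_sum]
      refine Finset.sum_congr rfl fun b _ => ?_
      rw [map_smul, smul_eq_mul]
      congr 2
      ext b'
      simp only [Pi.single_apply, eq_comm]
    let Fc : Coh Ω Y (2 * j) := ∑ b, (c b : Ω) • C.cl j (z b)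
    have hFT : Fc ∈ Tate Ω Y j :=
      Submodule.sum_mem _ fun b _ => Submodule.smul_mem _ _ (cl_mem hC j (z b))
    have h1 : ∀ y : C.CH i, C.pair h (C.cl i y) Fc = 0 := by
      intro y
      have h2 : φ y ∈ LinearMap.ker u := hle ⟨y, rfl⟩
      rw [LinearMap.mem_ker, hu'] at h2
      have h3 : ∑ b, C.int h y (z b) * c b = 0 := h2
      have h4 : ((∑ b, C.int h y (z b) * c b : ℚ) : Ω) = 0 := by rw [h3, Rat.cast_zero]
      rw [Rat.cast_sum] at h4
      rw [← h4, map_sum]
      refine Finset.sum_congr rfl fun b _ => ?_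
      rw [map_smul, smul_eq_mul, Rat.cast_mul, hC.int_cl, mul_comm]
    have h5 : ∀ g : Coh Ω Y (2 * i), g ∈ Tate Ω Y i → C.pair h g Fc = 0 := by
      intro g hg
      have h6 := hT i g hg
      induction h6 using Submodule.span_induction with
      | mem g hg' =>
        obtain ⟨y, rfl⟩ := hg'
        exact h1 y
      | zero => rw [map_zero, LinearMap.zero_apply]
      | add f g hf hg' hf' hg'' =>
        -- the induction hypotheses need membership; use the span directly
        rw [map_add, LinearMap.add_apply]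
        have hfT : f ∈ Tate Ω Y i := by
          refine (Submodule.span_le.2 ?_) hf
          rintro _ ⟨x, rfl⟩
          exact cl_mem hC i x
        have hgT : g ∈ Tate Ω Y i := by
          refine (Submodule.span_le.2 ?_) hg'
          rintro _ ⟨x, rfl⟩
          exact cl_mem hC i x
        rw [hf' hfT, hg'' hgT, add_zero]
      | smul c f hf hf' =>
        rw [map_smul, LinearMap.smul_apply]
        have hfT : f ∈ Tate Ω Y i := by
          refine (Submodule.span_le.2 ?_) hf
          rintro _ ⟨x, rfl⟩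
          exact cl_mem hC i x
        rw [hf' hfT, smul_zero]
    have h7 : Fc = 0 := by
      refine hC.duality h' Fc fun g => ?_
      obtain ⟨R, hR, -, hRT⟩ := exists_R Ω Y i
      have h8 := pair_aeval hC h' Fc hFT g R
      rw [hC.symm h' h, h5 _ (hRT g)] at h8
      exact (mul_eq_zero.1 h8.symm).resolve_left (by exact_mod_cast hR)
    have h9 : ∀ b, (c b : Ω) = 0 := by
      have h10 := Fintype.linearIndependent_iff.1 hli' (fun b => (c b : Ω)) h7
      exact h10
    apply hu
    ext v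
    rw [LinearMap.comp_apply, LinearMap.zero_comp, LinearMap.zero_apply, hu']
    refine Finset.sum_eq_zero fun b _ => ?_
    have h11 : c b = 0 := by exact_mod_cast h9 b
    rw [h11, mul_zero]
  have hy : ∀ a : Fin r, ∃ y : C.CH i, φ y = Pi.single a 1 := by
    intro a
    have : (Pi.single a 1 : Fin r → ℚ) ∈ LinearMap.range φ := by rw [hφ]; trivial
    exact this
  choose y hy using hy
  refine ⟨r, y, z, ?_, hli', hspan'⟩
  intro a b
  have h12 := congrFun (hy a) b
  have h13 : C.int h (y a) (z b) = (Pi.single a (1 : ℚ) : Fin r → ℚ) b := h12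
  rw [h13, Pi.single_apply]
  simp only [eq_comm]

/-- The coordinates of a Tate class. -/
theorem IsDual.expand (hC : IsChow C) {i j : ℕ} {h : HasDim Y (i + j)} {r : ℕ} {y : Fin r → C.CH i}
    {z : Fin r → C.CH j} (hd : IsDual C h y z) (f : Coh Ω Y (2 * j)) (hf : f ∈ Tate Ω Y j) :
    ∑ a, C.pair h (C.cl i (y a)) f • C.cl j (z a) = f := by
  classical
  rw [← hd.span, Submodule.mem_span_range_iff_exists_fun] at hf
  obtain ⟨c, hc⟩ := hf
  have h1 : ∀ a, C.pair h (C.cl i (y a)) f = c a := by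
    intro a
    rw [← hc, map_sum, Finset.sum_eq_single a]
    · rw [map_smul, ← hC.int_cl, hd.dual, if_pos rfl, Rat.cast_one, smul_eq_mul, mul_one]
    · intro b _ hb
      rw [map_smul, ← hC.int_cl, hd.dual, if_neg hb.symm, Rat.cast_zero, smul_zero]
    · intro ha
      exact absurd (Finset.mem_univ a) ha
  rw [Finset.sum_congr rfl fun a _ => by rw [h1 a], hc]

theorem map_aeval_int {A B : Type} [Ring A] [Ring B] (φ : A →+* B) (c : A) (R : ℤ[X]) :
    φ (aeval c R) = aeval (φ c) R :=
  (Polynomial.aeval_algHom_apply (RingHom.toIntAlgHom φ) c R).symm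

theorem actH_aeval (hC : IsChow C) (n : ℕ) (R : ℤ[X]) :
    C.actH n (aeval C.frob R) = aeval (Fr Ω Y n) R := by
  have h1 : C.actH n C.frob = Fr Ω Y n := by
    ext1 f
    exact hC.frob_coh n f
  rw [← h1]
  exact map_aeval_int (B := Module.End Ω (Coh Ω Y n)) (C.actH n) C.frob R

/-- The nilpotent correspondence. -/
theorem IsDual.nilpotent (hC : IsChow C) {i j : ℕ} {h : HasDim Y (i + j)} {r : ℕ}
    {y : Fin r → C.CH i} {z : Fin r → C.CH j} (hd : IsDual C h y z) {R : ℤ[X]}
    (hR0 : ∀ n, n ≠ 2 * j → aeval (Fr Ω Y n) R = 0)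
    (hRT : ∀ f : Coh Ω Y (2 * j), aeval (Fr Ω Y (2 * j)) R f ∈ Tate Ω Y j) :
    IsNilpotent (aeval C.frob R -
      ∑ a, C.prod h (y a) (((R.eval ((q Y ^ j : ℕ) : ℤ) : ℤ) : ℚ) • z a)) := by
  apply hC.nilpotent
  intro n
  rw [map_sub, actH_aeval hC, map_sum]
  by_cases hn : n = 2 * j
  · subst hn
    ext1 f
    rw [LinearMap.sub_apply, LinearMap.zero_apply, sub_eq_zero, LinearMap.sum_apply]
    rw [← hd.expand hC _ (hRT f)]
    refine Finset.sum_congr rfl fun a _ => ?_
    rw [hC.prod_coh, pair_aeval hC h _ (cl_mem hC i (y a)), cl_smul, smul_smul, Rat.cast_intCast]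
    congr 1
    exact mul_comm _ _
  · rw [hR0 n hn, Finset.sum_eq_zero]
    · ext1 f
      change (0 : Coh Ω Y n) - 0 = 0
      rw [sub_zero]
    · intro a _
      exact hC.prod_coh_ne h _ _ hn

/-- Rational and numerical equivalence coincide. -/
theorem num_trivial (hC : IsChow C) (hT : TateHolds C) {i j : ℕ} (h : HasDim Y (i + j))
    (x : C.CH j) (hx : ∀ y : C.CH i, C.int h y x = 0) : x = 0 := by
  obtain ⟨r, y, z, hd⟩ := exists_dual hC hT h
  obtain ⟨R, hR, hR0, hRT⟩ := exists_R Ω Y j
  obtain ⟨N, hN⟩ := hd.nilpotent hC hR0 hRT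
  set c := aeval C.frob R - ∑ a, C.prod h (y a) (((R.eval ((q Y ^ j : ℕ) : ℤ) : ℤ) : ℚ) • z a)
    with hc
  have hK : ((R.eval ((q Y ^ j : ℕ) : ℤ) : ℤ) : ℚ) ≠ 0 := by exact_mod_cast hR
  have h1 : C.act j c x = ((R.eval ((q Y ^ j : ℕ) : ℤ) : ℤ) : ℚ) • x := by
    rw [hc, map_sub, LinearMap.sub_apply, map_sum, LinearMap.sum_apply, Finset.sum_eq_zero,
      sub_zero]
    · refine act_aeval (C.act j) C.frob _ (fun x => ?_) R x
      rw [hC.frob_chow]
      push_cast
      rfl
    · intro a _
      rw [hC.prod_chow, hx, zero_smul]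
  have h2 : ∀ m : ℕ, (C.act j (c ^ m)) x = (((R.eval ((q Y ^ j : ℕ) : ℤ) : ℤ) : ℚ)) ^ m • x := by
    intro m
    induction m with
    | zero => rw [pow_zero, pow_zero, map_one, one_smul]; rfl
    | succ m ih =>
      rw [pow_succ, map_mul, Module.End.mul_apply, h1, map_smul, ih, smul_smul, ← pow_succ']
  have h3 := h2 N
  rw [hN, map_zero, LinearMap.zero_apply] at h3
  exact (smul_eq_zero.1 h3.symm).resolve_left (pow_ne_zero _ hK)

/-- Homologically trivial cycles are zero. -/
theorem hom_trivial (hC : IsChow C) (hT : TateHolds C) {i j : ℕ} (h : HasDim Y (i + j))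
    (x : C.CH j) (hx : C.cl j x = 0) : x = 0 := by
  refine num_trivial hC hT h x fun y => ?_
  have h1 := hC.int_cl h y x
  rw [hx, map_zero] at h1
  exact_mod_cast h1

/-- The coordinates of a cycle. -/
theorem IsDual.expand_cycle (hC : IsChow C) (hT : TateHolds C) {i j : ℕ} {h : HasDim Y (i + j)}
    {r : ℕ} {y : Fin r → C.CH i} {z : Fin r → C.CH j} (hd : IsDual C h y z) (x : C.CH j) :
    ∑ a, C.int h (y a) x • z a = x := by
  have h1 : C.cl j (x - ∑ a, C.int h (y a) x • z a) = 0 := by
    rw [map_sub, map_sum, sub_eq_zero]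
    conv_lhs => rw [← hd.expand hC _ (cl_mem hC j x)]
    refine Finset.sum_congr rfl fun a _ => ?_
    rw [cl_smul, hC.int_cl]
  have h2 := hom_trivial hC hT h _ h1
  rw [sub_eq_zero] at h2
  exact h2.symm

/-- There are no cycles of codimension above the dimension. -/
theorem nil_of_gt (hC : IsChow C) {g j : ℕ} (hg : HasDim Y g) (hj : g < j) {R : ℤ[X]}
    (hR0 : ∀ n, n ≠ 2 * j → aeval (Fr Ω Y n) R = 0) : IsNilpotent (aeval C.frob R) := by
  apply hC.nilpotent
  intro n
  rw [actH_aeval hC]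
  by_cases hn : n = 2 * j
  · subst hn
    ext1 f
    refine coh_zero Ω Y ?_ _
    unfold HasDim at hg
    omega
  · exact hR0 n hn

/-- For each `j` a polynomial in the Frobenius correspondence is, up to products of cycles, nilpotent,
and does not vanish at `q ^ j`. -/
theorem exists_nilpotent (hC : IsChow C) (hT : TateHolds C) (j : ℕ) :
    ∃ (R : ℤ[X]) (P : C.Corr), R.eval ((q Y ^ j : ℕ) : ℤ) ≠ 0 ∧
      P ∈ AddSubgroup.closure {c : C.Corr | ∃ (i j : ℕ) (h : HasDim Y (i + j)) (y : C.CH i)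
        (z : C.CH j), c = C.prod h y z} ∧ IsNilpotent (aeval C.frob R - P) := by
  obtain ⟨R, hR, hR0, hRT⟩ := exists_R Ω Y j
  obtain ⟨g, hg⟩ := exists_dim Y
  rcases le_or_gt j g with hj | hj
  · have h : HasDim Y ((g - j) + j) := by
      rwa [Nat.sub_add_cancel hj]
    obtain ⟨r, y, z, hd⟩ := exists_dual hC hT h
    refine ⟨R, ∑ a, C.prod h (y a) (((R.eval ((q Y ^ j : ℕ) : ℤ) : ℤ) : ℚ) • z a), hR, ?_,
      hd.nilpotent hC hR0 hRT⟩
    exact AddSubgroup.sum_mem _ fun a _ => AddSubgroup.subset_closure ⟨_, _, h, _, _, rfl⟩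
  · refine ⟨R, 0, hR, AddSubgroup.zero_mem _, ?_⟩
    rw [sub_zero]
    exact nil_of_gt hC hg hj hR0

/-- A module over the correspondences on which the Frobenius endomorphism acts as multiplication by
`q ^ j` and products of cycles act as zero vanishes. -/
theorem module_trivial (hC : IsChow C) (hT : TateHolds C) {T : Type} [AddCommGroup T] [Module ℚ T]
    (φ : C.Corr →+* Module.End ℚ T) (j : ℕ) (hφ : ∀ x, φ C.frob x = (q Y : ℚ) ^ j • x)
    (hprod : ∀ (i k : ℕ) (h : HasDim Y (i + k)) (y : C.CH i) (z : C.CH k) (x : T),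
      φ (C.prod h y z) x = 0) (x : T) : x = 0 := by
  obtain ⟨R, P, hR, hP, N, hN⟩ := exists_nilpotent hC hT j
  have hK : ((R.eval ((q Y ^ j : ℕ) : ℤ) : ℤ) : ℚ) ≠ 0 := by exact_mod_cast hR
  have h0 : ∀ x, φ P x = 0 := by
    intro x
    clear hN
    induction hP using AddSubgroup.closure_induction with
    | mem c hc =>
      obtain ⟨i, k, h, y, z, rfl⟩ := hc
      exact hprod i k h y z x
    | zero => rw [map_zero, LinearMap.zero_apply]
    | add a b _ _ ha hb => rw [map_add, LinearMap.add_apply, ha, hb, add_zero]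
    | neg a _ ha => rw [map_neg, LinearMap.neg_apply, ha, neg_zero]
  have h1 : ∀ x, φ (aeval C.frob R - P) x = ((R.eval ((q Y ^ j : ℕ) : ℤ) : ℤ) : ℚ) • x := by
    intro x
    rw [map_sub, LinearMap.sub_apply, h0, sub_zero]
    refine act_aeval φ C.frob _ (fun x => ?_) R x
    rw [hφ]
    push_cast
    rfl
  have h2 : ∀ (m : ℕ) (x : T), (φ ((aeval C.frob R - P) ^ m)) x =
      (((R.eval ((q Y ^ j : ℕ) : ℤ) : ℤ) : ℚ)) ^ m • x := by
    intro m
    induction m with
    | zero => intro x; rw [pow_zero, pow_zero, map_one, one_smul]; rfl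
    | succ m ih =>
      intro x
      rw [pow_succ, map_mul, Module.End.mul_apply, h1, map_smul, ih, smul_smul, ← pow_succ']
  have h3 := h2 N x
  rw [hN, map_zero, LinearMap.zero_apply] at h3
  exact (smul_eq_zero.1 h3.symm).resolve_left (pow_ne_zero _ hK)

end

end Pool.Agent.W495.FM.In
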