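import Pool.Agent.W495.FM.Inner
import Pool.Agent.W495.TA.Final
import Pool.Agent.W67.TA.BasisX
import Pool.Agent.W495.TB.Final

/-!
# Eigenvectors of the Frobenius endomorphism and polynomials
-/

set_option autoImplicit false

namespace Pool.Agent.W495.FM.In

open NumberField Pool.Agent.H204R3.CM Pool.Agent.W547.KB Pool.Agent.W547.LD Module
  Pool.Agent.W495.TA Polynomial
open scoped TensorProduct

noncomputable section

variable {p : ℕ} [Fact p.Prime] {ν : PadicAlgCl p ≃+* ℂ}

/-- Eigenvectors of the Frobenius endomorphism. -/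
theorem exists_eigen (Ω : Type) [Field Ω] [IsAlgClosed Ω] [CharZero Ω] (Y : RedAV p ν) :
    ∃ (W : Type) (_ : Fintype W) (e : Basis W Ω (TM Ω Y)) (lam : W → Ω),
      (∀ w, F Ω Y (e w) = lam w • e w) ∧ (∀ w, IsIntegral ℤ (lam w)) ∧
      ∀ (n j : ℕ) (I : Fin n → W), ∏ k, lam (I k) = (q Y : Ω) ^ j → n = 2 * j := by
  classical
  rcases isEmpty_or_nonempty Y.X.I with hI | hI
  · have h0 : Subsingleton Y.X.H1 := ⟨fun a b => funext fun i => (hI.false i).elim⟩
    have hsub : Subsingleton (TM Ω Y) := by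
      refine ⟨fun a b => ?_⟩
      have h1 : ∀ c : TM Ω Y, c = 0 := by
        intro c
        induction c using TensorProduct.induction_on with
        | zero => rfl
        | tmul x y => rw [Subsingleton.elim y 0, TensorProduct.tmul_zero]
        | add x y hx hy => rw [hx, hy, add_zero]
      rw [h1 a, h1 b]
    refine ⟨Empty, inferInstance, Basis.empty _, fun _ => 0, fun w => w.elim, fun w => w.elim, ?_⟩
    intro n j I hprod
    rcases Nat.eq_zero_or_pos n with hn | hn
    · subst hn
      rw [Finset.univ_eq_empty, Finset.prod_empty] at hprod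
      have h2 : (q Y) ^ j = 1 := by
        have h3 : ((1 : ℕ) : Ω) = ((q Y ^ j : ℕ) : Ω) := by
          push_cast
          exact hprod
        exact (Nat.cast_injective h3).symm
      have h4 : j = 0 := by
        by_contra hj
        have h5 : 1 < q Y := Nat.one_lt_pow Y.pos.ne' (Fact.out : p.Prime).one_lt
        have h6 : 1 < q Y ^ j := Nat.one_lt_pow hj h5
        omega
      omega
    · exact (I ⟨0, hn⟩).elim
  obtain ⟨L, _, _, _, _, j, hj⟩ := exists_cm Y.X
  have hYj : Big Y.X j := hj
  let jO : L →+* Ω := ((IsAlgClosed.lift : L →ₐ[ℚ] Ω) : L →+* Ω)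
  obtain ⟨e, h1, h2⟩ := Pool.Agent.W67.TA.basis p ν Ω L j jO Y hYj
  have := Pool.Agent.W495.TB.finite_wt j hYj
  have := Fintype.ofFinite (Wt Y.X L)
  refine ⟨Wt Y.X L, inferInstance, e, fun w => jO (w.2 (Y.π w.1)),
    fun w => F_e jO e h1 h2 w, fun w => ?_, ?_⟩
  · obtain ⟨P, hP, hP0⟩ := (Y.frob w.1).integral
    refine ⟨P, hP, ?_⟩
    have h3 := congrArg (fun x => jO (w.2 x)) hP0
    simp only [map_zero] at h3
    rw [← h3, Polynomial.hom_eval₂, Polynomial.hom_eval₂]
    congr 1
    exact RingHom.ext_int _ _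
  · intro n m I hprod
    have h3 : ∏ k, (I k).2 (Y.π (I k).1) = (q Y : L) ^ m := by
      apply jO.injective
      rw [map_prod, map_pow, map_natCast, ← hprod]
    have h4 := congrArg (fun x => ‖j x‖ ^ 2) h3
    simp only [map_prod, map_pow, map_natCast] at h4
    rw [norm_prod, ← Finset.prod_pow] at h4
    have h5 : ∀ k, ‖j ((I k).2 (Y.π (I k).1))‖ ^ 2 = (p : ℝ) ^ Y.a := fun k =>
      (Y.frob (I k).1).weil (j.comp (I k).2)
    rw [Finset.prod_congr rfl fun k _ => h5 k, Finset.prod_const, Finset.card_univ,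
      Fintype.card_fin, norm_pow, Complex.norm_natCast] at h4
    have h6 : ((p ^ Y.a) ^ n : ℕ) = ((p ^ Y.a) ^ (m * 2) : ℕ) := by
      have h7 : (((p ^ Y.a) ^ n : ℕ) : ℝ) = (((p ^ Y.a) ^ (m * 2) : ℕ) : ℝ) := by
        push_cast
        rw [h4]
        unfold q
        push_cast
        rw [← pow_mul]
      exact_mod_cast h7
    have h8 : 1 < p ^ Y.a := Nat.one_lt_pow Y.pos.ne' (Fact.out : p.Prime).one_lt
    have h9 := Nat.pow_right_injective h8 h6
    omega

/-- A polynomial with integral coefficients that vanishes at finitely many given numbers, but not at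
a given natural number. -/
theorem exists_poly {Ω : Type} [Field Ω] [CharZero Ω] (S : Finset Ω) (hS : ∀ x ∈ S, IsIntegral ℤ x)
    (N : ℕ) : ∃ R : ℤ[X], R.eval (N : ℤ) ≠ 0 ∧ ∀ x ∈ S, x ≠ (N : Ω) → aeval x R = 0 := by
  classical
  induction S using Finset.induction_on with
  | empty => exact ⟨1, by simp, fun x hx => absurd hx (Finset.notMem_empty x)⟩
  | insert x S hx ih =>
    obtain ⟨R, hR, hR'⟩ := ih fun y hy => hS y (Finset.mem_insert_of_mem hy)
    by_cases hxN : x = (N : Ω)
    · refine ⟨R, hR, fun y hy hyN => ?_⟩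
      rcases Finset.mem_insert.1 hy with h | h
      · exact absurd (h.trans hxN) hyN
      · exact hR' y h hyN
    · obtain ⟨P, hP, hPx⟩ := hS x (Finset.mem_insert_self x S)
      have hP0 : P ≠ 0 := hP.ne_zero
      obtain ⟨Q, hQ, hQ'⟩ := exists_eq_pow_rootMultiplicity_mul_and_not_dvd P hP0 (N : ℤ)
      refine ⟨R * Q, ?_, fun y hy hyN => ?_⟩
      · rw [eval_mul]
        refine mul_ne_zero hR ?_
        intro h
        exact hQ' (dvd_iff_isRoot.2 h)
      · rw [map_mul]
        rcases Finset.mem_insert.1 hy with h | h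
        · subst h
          have h1 : aeval y P = 0 := hPx
          rw [hQ, map_mul, map_pow, map_sub, aeval_X, aeval_C] at h1
          have h2 : (y - algebraMap ℤ Ω (N : ℤ)) ≠ 0 := by
            rw [sub_ne_zero]
            simpa using hyN
          rw [(mul_eq_zero.1 h1).resolve_left (pow_ne_zero _ h2), mul_zero]
        · rw [hR' y h hyN, zero_mul]

end

end Pool.Agent.W495.FM.In
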