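import Pool.Agent.W495.FM.HomDefs

/-!
# Étale motivic cohomology with integral coefficients: definitions
-/

set_option autoImplicit false

namespace Pool.Agent.W495.FM

/-- Data of the Weil-étale motivic cohomology groups `W X i n = H^i_W(X, ℤ(n))` and of the étale
motivic cohomology groups `Et X i n = H^i(X_et, ℤ(n))` of the schemes `X : V`. -/
structure EtaleMotivic (V : Type) where
  W : V → ℤ → ℕ → Type
  [wgrp : ∀ X i n, AddCommGroup (W X i n)]
  Et : V → ℤ → ℕ → Type
  [etgrp : ∀ X i n, AddCommGroup (Et X i n)]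

attribute [instance] EtaleMotivic.wgrp EtaleMotivic.etgrp

variable {V : Type}

/-- Known properties for the smooth projective schemes `X` of dimension `d` over a finite field
(predicate `P X d`). -/
structure IsEtaleMotivic {Ω : Type} [Field Ω] (T : Homology Ω V) (L : EtaleMotivic V)
    (P : V → ℕ → Prop) : Prop where
  /-- purity (Deligne): the Frobenius has no eigenvalue one on `H_i(X, ℚ_ℓ(j))` for `i ≠ 2 j` -/
  pure : ∀ X d, P X d → ∀ i j, i ≠ 2 * j → ∀ e : T.E X i j, T.frob X i j e = e → e = 0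
  /-- the conjecture of Tate and Beilinson for `X` implies that the Weil-étale groups are finitely
  generated (Geisser) -/
  finite : ∀ X d, P X d → TB T X → ∀ i n, AddGroup.FG (L.W X i n)
  /-- the exact sequences `H^(i-2)(X, ℚ(n)) → H^i(X_et, ℤ(n)) → H^i_W(X, ℤ(n))` (Geisser) -/
  exact : ∀ X d, P X d → ∀ (i : ℤ) (n : ℕ), ∃ (δ : T.M X (2 * d - (i - 2)) (d - n) →+ L.Et X i n)
    (a : L.Et X i n →+ L.W X i n), Function.Exact δ a

/-- Data `N X = H^3_nr(X, ℚ/ℤ(2))` of the unramified cohomology: a quotient of the group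
`H^4(X_et, ℤ(2))` (Lichtenbaum, Kahn), and a torsion group. -/
structure IsUnramified (L : EtaleMotivic V) (P : V → ℕ → Prop) (N : V → Type)
    [∀ X, AddCommGroup (N X)] : Prop where
  quotient : ∀ X d, P X d → ∃ b : L.Et X 4 2 →+ N X, Function.Surjective b
  torsion : ∀ X d, P X d → ∀ x : N X, ∃ m : ℕ, 0 < m ∧ m • x = 0

end Pool.Agent.W495.FM
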