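import Pool.Agent.W495.FM.GenericDefs
import Pool.Agent.W495.FM.DimMain

/-!
# Cohomology of the generic point
-/

set_option autoImplicit false
set_option linter.unusedSectionVars false
set_option linter.unusedVariables false

namespace Pool.Agent.W495.FM

open Module Pool.Agent.W495.TA
open scoped TensorProduct

noncomputable section

variable {Ω : Type} [Field Ω] [CharZero Ω] {V : Type} {T : Homology Ω V}

theorem ontoAt_iff (hT : IsHomology T) (X : V) (n i : ℤ) :
    IsOntoAt T X n i ↔ (node T hT X n i).Onto := by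
  rw [Node.onto_iff]
  have h3 : ∀ e, (hT.lin X n i).map e = T.frob X n i e := (hT.lin X n i).map_apply
  refine and_congr (forall_congr' fun e => ?_) (forall_congr' fun e => ?_)
  · rw [← h3]
    exact Iff.rfl
  · rw [← h3 (T.frob X n i e - e), ← h3 e]
    exact Iff.rfl

theorem generic_of_onto {G : Opens T} {X : V} {d : ℤ} (hG : IsOpens G X d) {n i : ℤ}
    (h : ∀ U, IsOntoAt T (G.X U) n i) : GenericAt G n i := by
  intro U e U' hU he
  refine ⟨U', hU, (h U').1 _ ?_⟩
  rw [(G.res hU n i).frob, he]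

theorem generic_of_none {G : Opens T} {n i : ℤ} (h : NoInvariants G n i) : GenericAt G n i := by
  intro U e U' hU he
  obtain ⟨U'', h', h1⟩ := h U e U' hU he
  exact ⟨U'', h', by rw [h1]; exact Submodule.zero_mem _⟩

/-- Weights. -/
theorem none_of_weights (hW : HasWeights T) {G : Opens T} {n i : ℤ} (h : n < 2 * i) :
    NoInvariants G n i := by
  intro U e U' hU he
  exact ⟨U', hU, hW.weights _ n i h _ (by rw [(G.res hU n i).frob, he])⟩

theorem none_of_low {G : Opens T} {X : V} {d : ℤ} (hG : IsOpens G X d) {n i : ℤ}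
    (h : d + i < n) : NoInvariants G n i := by
  intro U e U' hU he
  obtain ⟨U'', h', h1⟩ := hG.low U' n i h ((G.res hU n i).g e) (by rw [(G.res hU n i).frob, he])
  obtain ⟨h'', h2⟩ := hG.trans hU h'
  exact ⟨U'', h'', by rw [(h2 n i).2, h1]⟩

/-- Combinations of classes of cycles are trivial on a smaller open subvariety. -/
theorem kill_sum (hT : IsHomology T) {G : Opens T} {X : V} {d : ℤ} (hG : IsOpens G X d) {i : ℤ}
    (hi : i < d) : ∀ (n : ℕ) (U : G.O) (c : Fin n → Ω) (x : Fin n → T.M (G.X U) (2 * i) i),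
    ∃ (U' : G.O) (h : G.le U' U),
      (G.res h (2 * i) i).g (∑ k, c k • T.reg (G.X U) (2 * i) i (x k)) = 0 := by
  intro n
  induction n with
  | zero =>
    intro U c x
    refine ⟨U, hG.refl U, ?_⟩
    rw [Finset.univ_eq_empty, Finset.sum_empty, ← (G.res _ (2 * i) i).lin.map_apply, map_zero]
  | succ n ih =>
    intro U c x
    obtain ⟨U', h, h1⟩ := hG.kill U i hi (x 0)
    obtain ⟨U'', h', h2⟩ := ih U' (fun k => c k.succ) fun k => (G.res h (2 * i) i).f (x k.succ)
    obtain ⟨h'', h3⟩ := hG.trans h h'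
    refine ⟨U'', h'', ?_⟩
    rw [(h3 _ _).2, ← h2]
    congr 1
    rw [Fin.sum_univ_succ, ← (G.res h (2 * i) i).lin.map_apply, map_add, map_smul, map_sum,
      (G.res h (2 * i) i).lin.map_apply, ← (G.res h (2 * i) i).reg, h1,
      ← (hT.add _ _ _).map_apply, map_zero, smul_zero, zero_add]
    refine Finset.sum_congr rfl fun k _ => ?_
    rw [map_smul, (G.res h (2 * i) i).lin.map_apply, (G.res h (2 * i) i).reg]

theorem none_of_onto (hT : IsHomology T) {G : Opens T} {X : V} {d : ℤ} (hG : IsOpens G X d)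
    {n i : ℤ} (hn : n = 2 * i) (hi : i < d) (h : ∀ U, IsOntoAt T (G.X U) n i) :
    NoInvariants G n i := by
  subst hn
  intro U e U' hU he
  obtain ⟨U'', h', h1⟩ := generic_of_onto hG h U e U' hU he
  obtain ⟨m, c, g, h2⟩ := (Submodule.mem_span_set').1 h1
  have h3 : ∀ k, ∃ x, T.reg (G.X U'') (2 * i) i x = g k := fun k => (g k).2
  choose x hx using h3
  obtain ⟨U₃, h₃, h4⟩ := kill_sum hT hG hi m U'' c x
  obtain ⟨h₄, h5⟩ := hG.trans h' h₃
  refine ⟨U₃, h₄, ?_⟩
  rw [(h5 _ _).2, ← h2, ← h4]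
  congr 1
  exact Finset.sum_congr rfl fun k _ => by rw [hx]

/-- Open subvarieties, in the degree of `H^2(U, ℚ_ℓ(2))`. -/
theorem ontoAt_two (hT : IsHomology T) {G : Opens T} {X : V} {d : ℤ} (hG : IsOpens G X d)
    (hX : TB T X) (U : G.O) : IsOntoAt T (G.X U) (2 * d - 2) (d - 2) := by
  obtain ⟨Z, h, hZ⟩ := hG.triple U
  rw [ontoAt_iff hT] at hZ ⊢
  obtain ⟨a, b, δ, h⟩ := h (d - 2)
  have h1 : 2 * d - 2 = 2 * d - 3 + 1 := by ring
  rw [h1]
  exact four ((b (2 * d - 3 + 1)).arr hT) ((δ (2 * d - 3)).arr hT) ((a (2 * d - 3)).arr hT)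
    (h (2 * d - 3)).2.2.1 (h (2 * d - 3)).2.1.snd (h (2 * d - 3)).2.2.snd
    ((tb_iff T hT X).1 hX _ _).2 hZ ((tb_iff T hT X).1 hX _ _)

theorem onto_opens (hT : IsHomology T) (hW : HasWeights T) {G : Opens T} {X : V} {d : ℤ}
    (hG : IsOpens G X d) (hX : ∀ i, IsOnto T X i) (U : G.O) {n i : ℤ} (hn : n = 2 * i) :
    IsOntoAt T (G.X U) n i := by
  subst hn
  obtain ⟨Z, h, -⟩ := hG.triple U
  exact onto_opened hT hW h (hX i)

/-- The degrees `a = 2 j`. -/
theorem generic_even (hT : IsHomology T) (hW : HasWeights T) {G : Opens T} {X : V} {d : ℤ}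
    (hG : IsOpens G X d) (hX : ∀ i, IsOnto T X i) {a j : ℤ} (h : a = 2 * j) :
    GenericAt G (2 * d - a) (d - j) ∧ (0 < j → NoInvariants G (2 * d - a) (d - j)) := by
  have h1 : 2 * d - a = 2 * (d - j) := by rw [h]; ring
  exact ⟨generic_of_onto hG fun U => onto_opens hT hW hG hX U h1,
    fun hj => none_of_onto hT hG h1 (by omega) fun U => onto_opens hT hW hG hX U h1⟩

/-- The degrees `a` outside `j ≤ a < 2 j`. -/
theorem generic_outside (hT : IsHomology T) (hW : HasWeights T) {G : Opens T} {X : V} {d : ℤ}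
    (hG : IsOpens G X d) (hX : ∀ i, IsOnto T X i) {a j : ℤ} (h : a < j ∨ 2 * j ≤ a) :
    GenericAt G (2 * d - a) (d - j) ∧ (a ≠ 0 → NoInvariants G (2 * d - a) (d - j)) := by
  rcases h with h | h
  · have h1 : NoInvariants G (2 * d - a) (d - j) := none_of_low hG (by omega)
    exact ⟨generic_of_none h1, fun _ => h1⟩
  · rcases h.eq_or_lt with h | h
    · obtain ⟨h1, h2⟩ := generic_even hT hW hG hX h.symm
      refine ⟨h1, fun ha => ?_⟩
      rcases lt_or_ge 0 j with hj | hj
      · exact h2 hj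
      · exact none_of_low hG (by omega)
    · have h1 : NoInvariants G (2 * d - a) (d - j) := none_of_weights hW (by omega)
      exact ⟨generic_of_none h1, fun _ => h1⟩

/-- The degrees `a ≤ 2`. -/
theorem generic_two (hT : IsHomology T) (hW : HasWeights T) {G : Opens T} {X : V} {d : ℤ}
    (hG : IsOpens G X d) (hX : TB T X) {a j : ℤ} (h : a ≤ 2) :
    GenericAt G (2 * d - a) (d - j) := by
  have hX' : ∀ i, IsOnto T X i := fun i => (hX.iso hT i).1
  by_cases h1 : a < j ∨ 2 * j ≤ a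
  · exact (generic_outside hT hW hG hX' h1).1
  · rcases (show (a = 1 ∧ j = 1) ∨ (a = 2 ∧ j = 2) by omega) with ⟨rfl, rfl⟩ | ⟨rfl, rfl⟩
    · exact generic_of_onto hG hG.units
    · exact generic_of_onto hG (ontoAt_two hT hG hX)

end

end Pool.Agent.W495.FM
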