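import Pool.Agent.W495.FM.SpreadDefs

/-!
# Cohomology of the generic point: definitions
-/

set_option autoImplicit false

namespace Pool.Agent.W495.FM

open Pool.Agent.W495.TA

noncomputable section

variable {Ω : Type} [Field Ω] {V : Type}

/-- The Frobenius invariant elements of `H_n(X, ℚ_ℓ(i))` are combinations of regulators, and the
eigenvalue one is semisimple. -/
def IsOntoAt (T : Homology Ω V) (X : V) (n i : ℤ) : Prop :=
  (∀ e : T.E X n i, T.frob X n i e = e → e ∈ Submodule.span Ω (Set.range (T.reg X n i))) ∧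
    ∀ e : T.E X n i, T.frob X n i (T.frob X n i e - e) = T.frob X n i e - e → T.frob X n i e = e

/-- Data of the nonempty open subvarieties `X U`, `U : O`, of a variety: `le U' U` means that `X U'`
is contained in `X U`, and `res` is the restriction. -/
structure Opens (T : Homology Ω V) where
  O : Type
  X : O → V
  le : O → O → Prop
  res : ∀ {U U' : O}, le U' U → ∀ n i : ℤ, Hom T (X U) n i (X U') n i

variable {T : Homology Ω V}

/-- The `G.X U` are the nonempty open subvarieties of `X`, which has dimension `d`. -/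
structure IsOpens (G : Opens T) (X : V) (d : ℤ) : Prop where
  refl : ∀ U, G.le U U
  /-- the restrictions are transitive -/
  trans : ∀ {U U' U'' : G.O} (h : G.le U' U) (h' : G.le U'' U'), ∃ h'' : G.le U'' U, ∀ n i,
    (∀ x, (G.res h'' n i).f x = (G.res h' n i).f ((G.res h n i).f x)) ∧
    ∀ e, (G.res h'' n i).g e = (G.res h' n i).g ((G.res h n i).g e)
  /-- `Z = X ∖ X U` has dimension at most `d - 1`, so the invariant elements of
  `H_(2 d - 3)(Z, ℚ_ℓ(d - 2))` come from `CH_(d - 2)(Z, 1)` (invertible functions) -/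
  triple : ∀ U, ∃ Z, IsTriple T Z X (G.X U) ∧ IsOntoAt T Z (2 * d - 3) (d - 2)
  /-- the invariant elements of `H^1(X U, ℚ_ℓ(1))` come from invertible functions -/
  units : ∀ U, IsOntoAt T (G.X U) (2 * d - 1) (d - 1)
  /-- cycles of dimension less than `d` are trivial on a smaller open subvariety -/
  kill : ∀ U i, i < d → ∀ x : T.M (G.X U) (2 * i) i, ∃ (U' : G.O) (h : G.le U' U),
    (G.res h (2 * i) i).f x = 0
  /-- the weights of `H^a(U, ℚ_ℓ(j))` are at most `2 a - 2 j < 0` for smooth `U` and `a < j` -/
  low : ∀ U n i, d + i < n → ∀ e : T.E (G.X U) n i, T.frob (G.X U) n i e = e →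
    ∃ (U' : G.O) (h : G.le U' U), (G.res h n i).g e = 0

/-- The Galois invariant elements of the limit of the groups `H_n(X U, ℚ_ℓ(i))` over all `U` belong to
the span of the image of the limit of the motivic homology groups. -/
def GenericAt (G : Opens T) (n i : ℤ) : Prop :=
  ∀ (U : G.O) (e : T.E (G.X U) n i) (U' : G.O) (h : G.le U' U),
    (G.res h n i).g (T.frob (G.X U) n i e) = (G.res h n i).g e →
    ∃ (U'' : G.O) (h' : G.le U'' U),
      (G.res h' n i).g e ∈ Submodule.span Ω (Set.range (T.reg (G.X U'') n i))

/-- The limit of the groups `H_n(X U, ℚ_ℓ(i))` over all `U` has no Galois invariant elements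
different from zero. -/
def NoInvariants (G : Opens T) (n i : ℤ) : Prop :=
  ∀ (U : G.O) (e : T.E (G.X U) n i) (U' : G.O) (h : G.le U' U),
    (G.res h n i).g (T.frob (G.X U) n i e) = (G.res h n i).g e →
    ∃ (U'' : G.O) (h' : G.le U'' U), (G.res h' n i).g e = 0

end

end Pool.Agent.W495.FM
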