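import Pool.Agent.W495.FM.HigherDefs

/-!
# Motivic and `ℓ`-adic homology of schemes over a finite field: definitions
-/

set_option autoImplicit false

namespace Pool.Agent.W495.FM

open Pool.Agent.W495.TA

noncomputable section

/-- `f` is additive. -/
def IsAdd {A B : Type} [AddCommGroup A] [AddCommGroup B] (f : A → B) : Prop :=
  ∀ x y, f (x + y) = f x + f y

/-- `f` is linear. -/
def IsLin (K : Type) {A B : Type} [Field K] [AddCommGroup A] [Module K A] [AddCommGroup B]
    [Module K B] (f : A → B) : Prop :=
  ∃ φ : A →ₗ[K] B, ∀ x, f x = φ x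

/-- Data of motivic and `ℓ`-adic homology of the schemes `X : V` over a finite field: the motivic
homology `M X i j = H_i^M(X, ℚ(j))`, the `ℓ`-adic homology `E X i j = H_i(X, ℚ_ℓ(j)) ⊗ Ω` over the
algebraic closure, the operation `frob` of the Frobenius on it, and the regulator `reg`. -/
structure Homology (Ω : Type) [Field Ω] (V : Type) where
  M : V → ℤ → ℤ → Type
  [mgrp : ∀ X i j, AddCommGroup (M X i j)]
  [mmod : ∀ X i j, Module ℚ (M X i j)]
  E : V → ℤ → ℤ → Type
  [egrp : ∀ X i j, AddCommGroup (E X i j)]
  [emod : ∀ X i j, Module Ω (E X i j)]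
  frob : ∀ X i j, E X i j → E X i j
  reg : ∀ X i j, M X i j → E X i j

attribute [instance] Homology.mgrp Homology.mmod Homology.egrp Homology.emod

variable {Ω : Type} [Field Ω] {V : Type}

/-- The `ℓ`-adic homology groups are finite-dimensional, and the image of the regulator consists of
invariant elements. -/
structure IsHomology (T : Homology Ω V) : Prop where
  finite : ∀ X i j, FiniteDimensional Ω (T.E X i j)
  lin : ∀ X i j, IsLin Ω (T.frob X i j)
  add : ∀ X i j, IsAdd (T.reg X i j)
  frob_reg : ∀ X i j x, T.frob X i j (T.reg X i j x) = T.reg X i j x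

/-- Jannsen's generalised conjecture of Tate and Beilinson for `X`: in all degrees and for all twists
the regulator is, after extension of scalars, an isomorphism of the motivic homology with the space of
the Frobenius invariant elements (these are the linear combinations of the images, and linearly
independent elements have linearly independent images), and the eigenvalue one of the Frobenius is
semisimple. -/
def TB (T : Homology Ω V) (X : V) : Prop :=
  ∀ i j : ℤ,
    (∀ e, T.frob X i j e = e ↔ e ∈ Submodule.span Ω (Set.range (T.reg X i j))) ∧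
    (∀ (r : ℕ) (x : Fin r → T.M X i j), LinearIndependent ℚ x →
      LinearIndependent Ω fun k => T.reg X i j (x k)) ∧
    ∀ e, T.frob X i j (T.frob X i j e - e) = T.frob X i j e - e → T.frob X i j e = e

/-- A homomorphism of motivic and `ℓ`-adic homology groups which is compatible with the regulators and
the Frobenius. -/
structure Hom (T : Homology Ω V) (X : V) (i j : ℤ) (X' : V) (i' j' : ℤ) where
  f : T.M X i j → T.M X' i' j'
  g : T.E X i j → T.E X' i' j'
  add : IsAdd f
  lin : IsLin Ω g
  reg : ∀ x, T.reg X' i' j' (f x) = g (T.reg X i j x)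
  frob : ∀ x, T.frob X' i' j' (g x) = g (T.frob X i j x)

/-- Exactness for both homology theories. -/
def IsExact {T : Homology Ω V} {X : V} {i j : ℤ} {X' : V} {i' j' : ℤ} {X'' : V} {i'' j'' : ℤ}
    (a : Hom T X i j X' i' j') (b : Hom T X' i' j' X'' i'' j'') : Prop :=
  Function.Exact a.f b.f ∧ Function.Exact a.g b.g

/-- `Z` is a closed subscheme of `X` with complement `U`: the long exact localisation sequences of
motivic and of `ℓ`-adic homology. -/
def IsTriple (T : Homology Ω V) (Z X U : V) : Prop :=
  ∀ j : ℤ, ∃ (a : ∀ i, Hom T Z i j X i j) (b : ∀ i, Hom T X i j U i j)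
    (d : ∀ i, Hom T U (i + 1) j Z i j),
    ∀ i, IsExact (a i) (b i) ∧ IsExact (b (i + 1)) (d i) ∧ IsExact (d i) (a i)

/-- The motive of `X` is a direct summand of the sum of the motives of `Y l` twisted `r l` times: the
homology groups of `X` are direct summands of the sums of the groups of `Y l` in the degrees
`i + 2 r l` with the twists `j + r l`. -/
def IsSummandOf (T : Homology Ω V) {I : Type} [Fintype I] (X : V) (Y : I → V) (r : I → ℤ) : Prop :=
  ∀ i j : ℤ, ∃ (s : ∀ l, Hom T X i j (Y l) (i + 2 * r l) (j + r l))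
    (t : ∀ l, Hom T (Y l) (i + 2 * r l) (j + r l) X i j),
    (∀ x, ∑ l, (t l).f ((s l).f x) = x) ∧ ∀ x, ∑ l, (t l).g ((s l).g x) = x

/-- The smallest class of schemes that contains those with the property `S`, the schemes whose motives
are direct summands of finite sums of twists of motives of members, and that contains all of a closed
subscheme `Z` of `X`, `X` and the complement `U` if it contains two of them. -/
inductive Generated (T : Homology Ω V) (S : V → Prop) : V → Prop
  | base (X : V) (h : S X) : Generated T S X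
  | summand {I : Type} [Fintype I] (X : V) (Y : I → V) (r : I → ℤ) (h : IsSummandOf T X Y r)
      (hY : ∀ l, Generated T S (Y l)) : Generated T S X
  | closed (Z X U : V) (h : IsTriple T Z X U) (hX : Generated T S X) (hU : Generated T S U) :
      Generated T S Z
  | total (Z X U : V) (h : IsTriple T Z X U) (hZ : Generated T S Z) (hU : Generated T S U) :
      Generated T S X
  | opened (Z X U : V) (h : IsTriple T Z X U) (hZ : Generated T S Z) (hX : Generated T S X) :
      Generated T S U

variable [CharZero Ω] {p : ℕ} [Fact p.Prime] {ν : PadicAlgCl p ≃+* ℂ} {Y : RedAV p ν}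

/-- The isomorphism `β` is compatible with the Frobenius, which acts on `H^n(Y, ℚ_ℓ(c))` as
`q ^ (-c)` times the pull-back. -/
def IsCompatible (T : Homology Ω V) (X : V) (i j : ℤ) (n : ℕ) (c : ℤ)
    (β : T.E X i j → Coh Ω Y n) : Prop :=
  IsLin Ω β ∧ Function.Bijective β ∧ ∀ e, β (T.frob X i j e) = ((q Y : Ω) ^ c)⁻¹ • Fr (β e)

/-- Isomorphisms of the groups of `X` with `CH^c(Y)` and `H^(2 c)(Y, ℚ_ℓ(c))`. -/
def IsCycle (T : Homology Ω V) (X : V) (i j : ℤ) (C : Cycles Ω Y) (c : ℕ) : Prop :=
  ∃ (f : T.M X i j → C.CH c) (β : T.E X i j → Coh Ω Y (2 * c)),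
    IsAdd f ∧ Function.Bijective f ∧ IsCompatible T X i j (2 * c) c β ∧
    ∀ x, β (T.reg X i j x) = C.cl c (f x)

/-- The groups of `X` are those of the abelian variety `Y` of dimension `g`:
`H_(2g - n)(X, ℚ(g - c)) = H^n(Y, ℚ(c))`, in particular `CH^c(Y)` for `n = 2 c`, and the same for the
`ℓ`-adic groups. -/
structure IsAbelian (T : Homology Ω V) (X : V) {C : Cycles Ω Y} (M : Motivic C) (g : ℕ) : Prop where
  dim : HasDim Y g
  motivic : ∀ n c : ℤ, ∃ f : T.M X (2 * g - n) (g - c) → M.H n c, IsAdd f ∧ Function.Injective f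
  neg : ∀ n c : ℤ, n < 0 → ∀ e : T.E X (2 * g - n) (g - c), e = 0
  coh : ∀ (n : ℕ) (c : ℤ), ∃ β, IsCompatible (Y := Y) T X (2 * g - n) (g - c) n c β
  chow : ∀ c : ℕ, IsCycle T X (2 * g - 2 * c) (g - c) C c

/-- `X` is a small abelian variety. -/
def IsSmallAbelian (p : ℕ) [Fact p.Prime] (ν : PadicAlgCl p ≃+* ℂ) (T : Homology Ω V) (X : V) :
    Prop :=
  ∃ (Y : RedAV p ν) (C : Cycles Ω Y) (M : Motivic C) (g : ℕ), IsSmall Y ∧ IsChow C ∧ IsMotivic M ∧
    IsAbelian T X M g

end

end Pool.Agent.W495.FM
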