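import Pool.Agent.W495.FM.Defs

/-!
# Cycles on abelian varieties over finite fields: bundled form of the definitions

`Y : RedAV p ν` is an abelian variety over the field with `q = p ^ a` elements (see `RedAV`). Its
`ℓ`-adic cohomology of degree `n`, with coefficients in an algebraically closed field `Ω` that
contains `ℚ_ℓ`, is the space of alternating `n`-forms on the Tate module.
-/

set_option autoImplicit false

namespace Pool.Agent.W495.FM.In

open NumberField Pool.Agent.H204R3.CM Pool.Agent.W547.KB Pool.Agent.W547.LD Module
  Pool.Agent.W495.TA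
open scoped TensorProduct

noncomputable section

variable {p : ℕ} [Fact p.Prime] {ν : PadicAlgCl p ≃+* ℂ}

variable (Ω : Type) [Field Ω] [CharZero Ω]

/-- The cohomology of degree `n`. -/
abbrev Coh (Y : RedAV p ν) (n : ℕ) : Type := (TM Ω Y) [⋀^Fin n]→ₗ[Ω] Ω

/-- The action of the Frobenius endomorphism on the cohomology (pull-back). -/
def Fr (Y : RedAV p ν) (n : ℕ) : Coh Ω Y n →ₗ[Ω] Coh Ω Y n where
  toFun f := f.compLinearMap (F Ω Y)
  map_add' f g := rfl
  map_smul' c f := rfl

/-- The space of Tate classes of degree `2 j` over the ground field: the Frobenius endomorphism acts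
as multiplication by `q ^ j`. -/
def Tate (Y : RedAV p ν) (j : ℕ) : Submodule Ω (Coh Ω Y (2 * j)) where
  carrier := {f | IsTateClass Ω Y 1 j f}
  zero_mem' := by
    intro v
    rw [AlternatingMap.zero_apply, AlternatingMap.zero_apply, mul_zero]
  add_mem' := by
    intro f g hf hg v
    rw [AlternatingMap.add_apply, AlternatingMap.add_apply, hf v, hg v, mul_add]
  smul_mem' := by
    intro c f hf v
    rw [AlternatingMap.smul_apply, AlternatingMap.smul_apply, hf v, smul_eq_mul, smul_eq_mul]
    ring

/-- Data of a theory of algebraic cycles on the abelian variety `Y` (all groups with rational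
coefficients): the Chow groups `CH j` of cycles of codimension `j`, the ring `Corr` of correspondences
of degree zero from `Y` to itself (the Chow group `CH^g(Y × Y)`, with composition), cycle classes
`cl`, the intersection number `int y z` of cycles of complementary codimension, the operations `act`
and `actH` of the correspondences on the Chow groups and on the cohomology, the correspondence `frob`
given by the Frobenius endomorphism, the products `prod y z = y × z` in `CH^g(Y × Y)`, and the
pairing `pair` of cohomology classes of complementary degree given by the cup product and the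
trace map. -/
structure Cycles (Y : RedAV p ν) where
  CH : ℕ → Type
  [gCH : ∀ j, AddCommGroup (CH j)]
  [mCH : ∀ j, Module ℚ (CH j)]
  Corr : Type
  [ring : Ring Corr]
  cl : ∀ j, CH j →+ Coh Ω Y (2 * j)
  int : ∀ {i j : ℕ}, HasDim Y (i + j) → CH i →ₗ[ℚ] CH j →ₗ[ℚ] ℚ
  act : ∀ j, Corr →+* Module.End ℚ (CH j)
  actH : ∀ n, Corr →+* Module.End Ω (Coh Ω Y n)
  frob : Corr
  prod : ∀ {i j : ℕ}, HasDim Y (i + j) → CH i → CH j → Corr
  pair : ∀ {i j : ℕ}, HasDim Y (i + j) → Coh Ω Y (2 * i) →ₗ[Ω] Coh Ω Y (2 * j) →ₗ[Ω] Ω

attribute [instance] Cycles.gCH Cycles.mCH Cycles.ring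

variable {Ω}

/-- The cycle classes are compatible with correspondences, and the operation of the Frobenius
endomorphism. -/
structure HasFrobenius {Y : RedAV p ν} (C : Cycles Ω Y) : Prop where
  /-- the cycle class map is compatible with correspondences -/
  act_cl : ∀ (j : ℕ) (c : C.Corr) (x : C.CH j), C.cl j (C.act j c x) = C.actH (2 * j) c (C.cl j x)
  /-- the Frobenius endomorphism acts on the cohomology by pull-back -/
  frob_coh : ∀ (n : ℕ) (f : Coh Ω Y n), C.actH n C.frob f = Fr Ω Y n f
  /-- the Frobenius endomorphism acts on `CH^j` as multiplication by `q ^ j` -/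
  frob_chow : ∀ (j : ℕ) (x : C.CH j), C.act j C.frob x = (q Y : ℚ) ^ j • x

/-- Poincaré duality. -/
structure HasDuality {Y : RedAV p ν} (C : Cycles Ω Y) : Prop where
  /-- the pairing is perfect -/
  duality : ∀ {i j : ℕ} (h : HasDim Y (i + j)) (f : Coh Ω Y (2 * i)),
    (∀ g : Coh Ω Y (2 * j), C.pair h f g = 0) → f = 0
  /-- the pairing is symmetric -/
  symm : ∀ {i j : ℕ} (h : HasDim Y (i + j)) (h' : HasDim Y (j + i)) (f : Coh Ω Y (2 * i))
    (g : Coh Ω Y (2 * j)), C.pair h f g = C.pair h' g f
  /-- the degree of the Frobenius endomorphism is `q ^ g` -/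
  frob_pair : ∀ {i j : ℕ} (h : HasDim Y (i + j)) (f : Coh Ω Y (2 * i)) (g : Coh Ω Y (2 * j)),
    C.pair h (Fr Ω Y _ f) (Fr Ω Y _ g) = (q Y : Ω) ^ (i + j) * C.pair h f g

/-- Intersection numbers, and the operation of products of cycles. -/
structure HasProducts {Y : RedAV p ν} (C : Cycles Ω Y) : Prop where
  /-- intersection numbers are given by the cup product of the classes -/
  int_cl : ∀ {i j : ℕ} (h : HasDim Y (i + j)) (y : C.CH i) (z : C.CH j),
    ((C.int h y z : ℚ) : Ω) = C.pair h (C.cl i y) (C.cl j z)
  /-- the correspondence `y × z` maps `x` to the multiple of `z` by the intersection number -/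
  prod_chow : ∀ {i j : ℕ} (h : HasDim Y (i + j)) (y : C.CH i) (z x : C.CH j),
    C.act j (C.prod h y z) x = C.int h y x • z
  /-- the operation of `y × z` on the cohomology of degree `2 j` -/
  prod_coh : ∀ {i j : ℕ} (h : HasDim Y (i + j)) (y : C.CH i) (z : C.CH j) (f : Coh Ω Y (2 * j)),
    C.actH (2 * j) (C.prod h y z) f = C.pair h (C.cl i y) f • C.cl j z
  /-- the operation of `y × z` on the cohomology of other degrees -/
  prod_coh_ne : ∀ {i j n : ℕ} (h : HasDim Y (i + j)) (y : C.CH i) (z : C.CH j), n ≠ 2 * j →
    C.actH n (C.prod h y z) = 0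

/-- The properties of the theory of algebraic cycles modulo rational equivalence. -/
structure IsChow {Y : RedAV p ν} (C : Cycles Ω Y) : Prop extends HasFrobenius C, HasDuality C,
    HasProducts C where
  /-- homologically trivial correspondences are nilpotent (Kimura; the Chow motives of abelian
  varieties are finite-dimensional) -/
  nilpotent : ∀ c : C.Corr, (∀ n, C.actH n c = 0) → IsNilpotent c

end

end Pool.Agent.W495.FM.In
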