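import Pool.Agent.W495.FM.SouleDefs
import Pool.Agent.W495.FM.Hom

/-!
# Motivic cohomology in low degrees
-/

set_option autoImplicit false

namespace Pool.Agent.W495.FM

open Pool.Agent.W495.TA

noncomputable section

variable {Ω : Type} [Field Ω] {V : Type} {T : Homology Ω V}

theorem motivic_zero (hT : IsHomology T) {X : V} (hX : TB T X) {n i : ℤ}
    (h : ∀ e : T.E X n i, T.frob X n i e = e → e = 0) (x : T.M X n i) : x = 0 := by
  by_contra hx
  have h1 : LinearIndependent ℚ (fun _ : Fin 1 => x) :=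
    LinearIndependent.of_subsingleton (0 : Fin 1) hx
  have h2 := (hX n i).2.1 1 (fun _ => x) h1
  exact h2.ne_zero (0 : Fin 1) (h _ (hT.frob_reg X n i x))

theorem below (hT : IsHomology T) {X : V} {d : ℤ} (hX : TB T X) (hd : HasDimension T X d)
    {n i : ℤ} (h : d + i < n) (x : T.M X n i) : x = 0 :=
  motivic_zero hT hX (hd n i h) x

theorem isAdd_zero {A B : Type} [AddCommGroup A] [AddCommGroup B] {f : A → B} (h : IsAdd f) :
    f 0 = 0 := by
  have := h 0 0
  rw [add_zero] at this
  simpa using this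

theorem open_zero (hT : IsHomology T) {X : V} {d : ℤ} (hX : TB T X) (hd : HasDimension T X d)
    {G : Opens T} (hG : IsOpenIn G X d) (U : G.O) {a : ℤ} (ha : a ≤ 1)
    (x : T.M (G.X U) (2 * d - a) (d - 2)) : x = 0 := by
  obtain ⟨Z, h, hZ⟩ := hG U
  obtain ⟨_, b, δ, h⟩ := h (d - 2)
  have h1 : 2 * d - a = (2 * d - a - 1) + 1 := by ring
  revert x
  rw [h1]
  intro x
  have h2 : (δ (2 * d - a - 1)).f x = 0 := hZ _ (by omega) _
  obtain ⟨y, hy⟩ := ((h (2 * d - a - 1)).2.1.1 x).1 h2
  have h3 : y = 0 := below hT hX hd (by omega) y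
  rw [← hy, h3]
  exact isAdd_zero (b _).add

end

end Pool.Agent.W495.FM
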