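import Pool.Agent.W495.FM.GenericDefs

/-!
# Motivic cohomology in low degrees: definitions
-/

set_option autoImplicit false

namespace Pool.Agent.W495.FM

open Pool.Agent.W495.TA

noncomputable section

variable {Ω : Type} [Field Ω] {V : Type} {T : Homology Ω V}

/-- The dimension of `X` is at most `d`: the weights of `H_n(X, ℚ_ℓ(i))` are at most
`2 (d + i) - 2 n` (Deligne), so that there are no Frobenius invariant elements for `n > d + i`. -/
def HasDimension (T : Homology Ω V) (X : V) (d : ℤ) : Prop :=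
  ∀ n i : ℤ, d + i < n → ∀ e : T.E X n i, T.frob X n i e = e → e = 0

/-- The `G.X U` are the nonempty open subvarieties of `X`, which has dimension `d`: the complement `Z`
of `G.X U` has dimension at most `d - 1`, and `CH_(d - 2)(Z, m) = 0` for `m ≥ 2` (this group is
`M Z n (d - 2)` for `n = m + 2 (d - 2)`). -/
def IsOpenIn (G : Opens T) (X : V) (d : ℤ) : Prop :=
  ∀ U : G.O, ∃ Z, IsTriple T Z X (G.X U) ∧ ∀ n : ℤ, 2 * d - 2 ≤ n → ∀ x : T.M Z n (d - 2), x = 0

/-- The groups `A a = H^a(F, ℤ(2))` for a subfield `F` of the function field of `X`. -/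
structure IsStalk (G : Opens T) (d : ℤ) (A : ℤ → Type) [∀ a, AddCommGroup (A a)] : Prop where
  /-- `H^a(F, ℤ(2))` is torsion free for `a ≤ 0`, because `H^(a - 1)(F, ℤ/m(2)) = 0` (Suslin and
  Voevodsky, Geisser and Levine) -/
  torsionfree : ∀ a, a ≤ 0 → ∀ (m : ℕ) (x : A a), m ≠ 0 → m • x = 0 → x = 0
  /-- the image of `x` in `H^a(F_q(X), ℚ(2))` comes from an element `y` of
  `H^a(U, ℚ(2)) = H_(2 d - a)(U, ℚ(d - 2))` for some open subvariety `U`; if it is zero, then `x` is a
  torsion element (`H^a(F, ℚ(2))` injects into `H^a(F_q(X), ℚ(2))` by specialisation and transfer) -/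
  rational : ∀ a (x : A a), ∃ (U : G.O) (y : T.M (G.X U) (2 * d - a) (d - 2)),
    y = 0 → ∃ m : ℕ, m ≠ 0 ∧ m • x = 0

end

end Pool.Agent.W495.FM
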