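import Pool.Agent.W495.FM.HomDefs

/-!
# Cycle classes on open subvarieties and on images: definitions
-/

set_option autoImplicit false

namespace Pool.Agent.W495.FM

open Pool.Agent.W495.TA

noncomputable section

variable {Ω : Type} [Field Ω] {V : Type}

/-- The motivic homology groups `M X n j = CH_j(X, n - 2 j)` vanish for `n < 2 j`, and the Frobenius
has no eigenvalue one on `H_n(X, ℚ_ℓ(j))` for `n < 2 j` (the weights are at least `2 j - n`). -/
structure HasWeights (T : Homology Ω V) : Prop where
  motivic : ∀ X n j, n < 2 * j → ∀ x : T.M X n j, x = 0
  weights : ∀ X n j, n < 2 * j → ∀ e : T.E X n j, T.frob X n j e = e → e = 0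

/-- The cycle class map of `X` for cycles of dimension `i` is surjective onto the Frobenius invariant
elements (with coefficients `Ω`), and the eigenvalue one is semisimple. -/
def IsOnto (T : Homology Ω V) (X : V) (i : ℤ) : Prop :=
  (∀ e : T.E X (2 * i) i, T.frob X _ _ e = e → e ∈ Submodule.span Ω (Set.range (T.reg X _ _))) ∧
    ∀ e : T.E X (2 * i) i, T.frob X _ _ (T.frob X _ _ e - e) = T.frob X _ _ e - e →
      T.frob X _ _ e = e

/-- Moreover it is injective: linearly independent elements of `CH_i(X)` (with rational coefficients)
have linearly independent classes. -/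
def IsIso (T : Homology Ω V) (X : V) (i : ℤ) : Prop :=
  IsOnto T X i ∧ ∀ (r : ℕ) (x : Fin r → T.M X (2 * i) i), LinearIndependent ℚ x →
    LinearIndependent Ω fun k => T.reg X _ _ (x k)

/-- `X` is the image of `X'` under a proper morphism: the push-forward has the property that the
Frobenius has no eigenvalue one on its cokernel in the groups `H_(2 i)(X, ℚ_ℓ(i))` (weights). -/
def IsImage (T : Homology Ω V) (X' X : V) : Prop :=
  ∀ i : ℤ, ∃ h : Hom T X' (2 * i) i X (2 * i) i,
    ∀ e, T.frob X _ _ e - e ∈ Set.range h.g → e ∈ Set.range h.g

/-- The smallest class of varieties that contains those with the property `S`, the open subvarieties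
and the images under proper morphisms of members, the varieties that are the disjoint union of a
closed and an open member, and the varieties whose motives are direct summands of sums of twists of
motives of members. -/
inductive Spread (T : Homology Ω V) (S : V → Prop) : V → Prop
  | base (X : V) (h : S X) : Spread T S X
  | opened (Z X U : V) (h : IsTriple T Z X U) (hX : Spread T S X) : Spread T S U
  | image (X' X : V) (h : IsImage T X' X) (hX' : Spread T S X') : Spread T S X
  | total (Z X U : V) (h : IsTriple T Z X U) (hZ : Spread T S Z) (hU : Spread T S U) :
      Spread T S X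
  | summand {I : Type} [Fintype I] (X : V) (Y : I → V) (r : I → ℤ) (h : IsSummandOf T X Y r)
      (hY : ∀ l, Spread T S (Y l)) : Spread T S X

variable [CharZero Ω]

/-- The varieties generated by small abelian varieties, and those for which the cycle class maps in
all dimensions are known to be surjective, with semisimple eigenvalue one. -/
def IsKnown (p : ℕ) [Fact p.Prime] (ν : PadicAlgCl p ≃+* ℂ) (T : Homology Ω V) (X : V) : Prop :=
  Generated T (IsSmallAbelian p ν T) X ∨ ∀ i, IsOnto T X i

end

end Pool.Agent.W495.FM
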