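import Pool.Agent.W495.FM.HomDefs

/-!
# Weil-étale motivic cohomology: definitions
-/

set_option autoImplicit false

namespace Pool.Agent.W495.FM

open scoped TensorProduct

/-- Data of the Weil-étale motivic cohomology of the schemes `X : V`: the groups
`W X i n = H^i_W(X, ℤ(n))`, the groups `A ℓ X i n = H^i_et(X, ℤ_ℓ(n))` for all primes `ℓ`
(including the characteristic), and the homomorphisms between them. -/
structure WeilEtale (V : Type) where
  W : V → ℤ → ℤ → Type
  [wgrp : ∀ X i n, AddCommGroup (W X i n)]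
  A : ∀ (l : ℕ) [Fact l.Prime], V → ℤ → ℤ → Type
  [agrp : ∀ (l : ℕ) [Fact l.Prime] X i n, AddCommGroup (A l X i n)]
  [amod : ∀ (l : ℕ) [Fact l.Prime] X i n, Module ℤ_[l] (A l X i n)]
  c : ∀ (l : ℕ) [Fact l.Prime] X i n, ℤ_[l] ⊗[ℤ] W X i n →ₗ[ℤ_[l]] A l X i n

attribute [instance] WeilEtale.wgrp WeilEtale.agrp WeilEtale.amod

variable {V : Type}

/-- The statement `L^n(X)`: the groups `H^i_W(X, ℤ(n))` are finitely generated. -/
def LHolds (W : WeilEtale V) (X : V) (n : ℤ) : Prop := ∀ i, AddGroup.FG (W.W X i n)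

/-- The statement `K^n(X)`: for all primes `ℓ` and all `i` the map from `H^i_W(X, ℤ(n)) ⊗ ℤ_ℓ` to
`H^i_et(X, ℤ_ℓ(n))` is an isomorphism. -/
def KHolds (W : WeilEtale V) (X : V) (n : ℤ) : Prop :=
  ∀ (l : ℕ) [Fact l.Prime] (i : ℤ), Function.Bijective (W.c l X i n)

/-- Known properties for the smooth projective schemes `X` of dimension `d` (predicate `P X d`), and
`0 ≤ n ≤ d`. -/
structure IsWeilEtale {Ω : Type} [Field Ω] (T : Homology Ω V) (W : WeilEtale V)
    (P : V → ℕ → Prop) : Prop where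
  /-- `K^n(X)` and `K^(d-n)(X)` imply `L^n(X)` (Geisser) -/
  geisser : ∀ X d, P X d → ∀ n : ℕ, n ≤ d → KHolds W X n → KHolds W X (d - n) → LHolds W X n
  /-- the conjecture of Tate and Beilinson for `X` (for one `ℓ`, in all degrees) implies `K^n(X)` -/
  comparison : ∀ X d, P X d → TB T X → ∀ n : ℕ, n ≤ d → KHolds W X n

end Pool.Agent.W495.FM
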